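import Mathlib

/-!
# The tail of a sum of reciprocals of weights from the counting function
-/

set_option autoImplicit false

namespace Pool.Agent.K3h24.SB

open Finset

/-- if at most `C Y ^ a` members of a family have weight at most `Y`, `a < 1`, then the sum of the
reciprocals of the weights larger than `T` is at most a constant times `T ^ (a - 1)` -/
theorem tail_sum {α : Type*} (A : Finset α) (w : α → ℝ) {C a T : ℝ} (hC : 0 ≤ C) (ha : a < 1)
    (hT : 1 ≤ T) (hw : ∀ x ∈ A, T < w x)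
    (hc : ∀ Y : ℝ, 1 ≤ Y → ∀ B : Finset α, B ⊆ A → (∀ x ∈ B, w x ≤ Y) →
      (B.card : ℝ) ≤ C * Y ^ a) :
    ∑ x ∈ A, (w x)⁻¹ ≤ C * ((2 : ℝ) ^ a / (1 - 2 ^ (a - 1))) * T ^ (a - 1) := by
  classical
  have hT0 : 0 < T := by linarith
  set k : α → ℕ := fun x => ⌊Real.logb 2 (w x / T)⌋₊ with hk
  have hk1 : ∀ x ∈ A, T * 2 ^ (k x) ≤ w x := by
    intro x hx
    have hwx := hw x hx
    have h1 : 1 < w x / T := by rwa [one_lt_div hT0]
    have h0 : 0 ≤ Real.logb 2 (w x / T) := (Real.logb_pos one_lt_two h1).le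
    have h2 : ((k x : ℕ) : ℝ) ≤ Real.logb 2 (w x / T) := Nat.floor_le h0
    have h3 : (2 : ℝ) ^ ((k x : ℕ) : ℝ) ≤ w x / T := by
      rwa [Real.le_logb_iff_rpow_le one_lt_two (by linarith)] at h2
    rw [Real.rpow_natCast, le_div_iff₀ hT0] at h3
    linarith
  have hk2 : ∀ x ∈ A, w x ≤ T * 2 ^ (k x + 1) := by
    intro x hx
    have hwx := hw x hx
    have h1 : 1 < w x / T := by rwa [one_lt_div hT0]
    have h2 : Real.logb 2 (w x / T) < (k x : ℕ) + 1 := Nat.lt_floor_add_one _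
    have h3 : w x / T < (2 : ℝ) ^ (((k x : ℕ) : ℝ) + 1) := by
      rwa [Real.logb_lt_iff_lt_rpow one_lt_two (by linarith)] at h2
    rw [show (((k x : ℕ) : ℝ) + 1) = ((k x + 1 : ℕ) : ℝ) by push_cast; ring, Real.rpow_natCast,
      div_lt_iff₀ hT0] at h3
    linarith
  set N := A.sup k with hN
  have hmaps : ∀ x ∈ A, k x ∈ range (N + 1) := fun x hx =>
    Finset.mem_range.2 (Nat.lt_succ_of_le (Finset.le_sup hx))
  have hr : (2 : ℝ) ^ (a - 1) < 1 := Real.rpow_lt_one_of_one_lt_of_neg one_lt_two (by linarith)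
  have hr0 : (0 : ℝ) < 2 ^ (a - 1) := Real.rpow_pos_of_pos two_pos _
  have hlev : ∀ j ∈ range (N + 1), ∑ x ∈ A with k x = j, (w x)⁻¹ ≤
      C * 2 ^ a * T ^ (a - 1) * ((2 : ℝ) ^ (a - 1)) ^ j := by
    intro j _
    have h2j : (1 : ℝ) ≤ 2 ^ j := one_le_pow₀ one_le_two
    have h1 : ∀ x ∈ A.filter (fun x => k x = j), (w x)⁻¹ ≤ (T * 2 ^ j)⁻¹ := by
      intro x hx
      rw [Finset.mem_filter] at hx
      have h2 := hk1 x hx.1
      rw [hx.2] at h2
      exact inv_anti₀ (by positivity) h2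
    have h3 : (((A.filter fun x => k x = j).card : ℕ) : ℝ) ≤ C * (T * 2 ^ (j + 1)) ^ a := by
      refine hc _ ?_ _ (Finset.filter_subset _ _) ?_
      · have : (1 : ℝ) ≤ 2 ^ (j + 1) := one_le_pow₀ one_le_two
        nlinarith
      · intro x hx
        rw [Finset.mem_filter] at hx
        have h2 := hk2 x hx.1
        rwa [hx.2] at h2
    calc ∑ x ∈ A with k x = j, (w x)⁻¹ ≤ ∑ x ∈ A with k x = j, (T * 2 ^ j)⁻¹ :=
          Finset.sum_le_sum h1
      _ = ((A.filter fun x => k x = j).card : ℝ) * (T * 2 ^ j)⁻¹ := by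
          rw [Finset.sum_const, nsmul_eq_mul]
      _ ≤ C * (T * 2 ^ (j + 1)) ^ a * (T * 2 ^ j)⁻¹ :=
          mul_le_mul_of_nonneg_right h3 (by positivity)
      _ = C * 2 ^ a * T ^ (a - 1) * ((2 : ℝ) ^ (a - 1)) ^ j := by
          have e1 : (T * 2 ^ (j + 1)) ^ a = T ^ a * (2 : ℝ) ^ a * ((2 : ℝ) ^ a) ^ j := by
            rw [Real.mul_rpow hT0.le (by positivity), pow_succ, Real.mul_rpow (by positivity)
              two_pos.le, ← Real.rpow_natCast, ← Real.rpow_natCast, ← Real.rpow_mul two_pos.le,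
              ← Real.rpow_mul two_pos.le, mul_comm ((j : ℕ) : ℝ) a]
            ring
          have e2 : (2 : ℝ) ^ (a - 1) = 2 ^ a / 2 := by rw [Real.rpow_sub_one two_ne_zero]
          have e3 : T ^ (a - 1) = T ^ a / T := by rw [Real.rpow_sub_one hT0.ne']
          rw [e1, e2, e3, mul_inv, div_pow]
          field_simp
  calc ∑ x ∈ A, (w x)⁻¹ = ∑ j ∈ range (N + 1), ∑ x ∈ A with k x = j, (w x)⁻¹ :=
        (Finset.sum_fiberwise_of_maps_to hmaps _).symm
    _ ≤ ∑ j ∈ range (N + 1), C * 2 ^ a * T ^ (a - 1) * ((2 : ℝ) ^ (a - 1)) ^ j :=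
        Finset.sum_le_sum hlev
    _ = C * 2 ^ a * T ^ (a - 1) * ∑ j ∈ range (N + 1), ((2 : ℝ) ^ (a - 1)) ^ j := by
        rw [Finset.mul_sum]
    _ ≤ C * 2 ^ a * T ^ (a - 1) * (1 - 2 ^ (a - 1))⁻¹ := by
        refine mul_le_mul_of_nonneg_left ?_ (by positivity)
        have h := Summable.sum_le_tsum (range (N + 1)) (fun j _ => by positivity)
          (summable_geometric_of_lt_one hr0.le hr)
        rwa [tsum_geometric_of_lt_one hr0.le hr] at h
    _ = C * ((2 : ℝ) ^ a / (1 - 2 ^ (a - 1))) * T ^ (a - 1) := by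
        rw [div_eq_mul_inv]
        ring

end Pool.Agent.K3h24.SB
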