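import Mathlib
import Pool.Agent.Y728.MainK
import Pool.Agent.Y729.FW.Cond
import Pool.Agent.H57R3.VJ.C
import Pool.Agent.K3h24.SB.Tail

/-!
# The solutions of the unit equation in the rings of integers outside random ideals
-/

set_option autoImplicit false
set_option linter.unusedSectionVars false

namespace Pool.Agent.K3h24.SB

open NumberField IsDedekindDomain Finset
open Pool.Agent.H691R3 (fv Nv)
open Pool.Agent.TH876.Loc

/-- a set whose finite subsets are bounded -/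
theorem fin_of_bound {α : Type*} (S : Set α) (B : ℝ)
    (h : ∀ F : Finset α, (F : Set α) ⊆ S → (F.card : ℝ) ≤ B) : S.Finite ∧ (S.ncard : ℝ) ≤ B := by
  have hf : S.Finite := by
    by_contra hc
    obtain ⟨n, hn⟩ := exists_nat_gt B
    obtain ⟨F, hF, hF2⟩ := (show S.Infinite from hc).exists_subset_card_eq n
    have := h F hF
    rw [hF2] at this
    linarith
  refine ⟨hf, ?_⟩
  have := h hf.toFinset (by rw [Set.Finite.coe_toFinset])
  rwa [← Set.ncard_eq_toFinset_card S hf] at this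

variable {K : Type} [Field K] [NumberField K]

theorem pt_neg {l : K} (h0 : l ≠ 0) (h1 : l ≠ 1) : Pt (-l) := by
  refine ⟨neg_ne_zero.2 h0, fun h => h1 ?_⟩
  linear_combination -h

theorem of_pt_neg {l : K} (h : Pt (-l)) : l ≠ 0 ∧ l ≠ 1 := by
  refine ⟨fun h0 => h.1 (by rw [h0, neg_zero]), fun h1 => h.2 ?_⟩
  rw [h1]
  ring

/-- the primes at which `x` or `1 - x` is not a unit -/
theorem mem_rad {x : K} (hx : Pt (-x)) (v : Pr K) :
    v ∈ sp (-x) ↔ ¬ (v.valuation K x = 1 ∧ v.valuation K (1 - x) = 1) := by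
  rw [mem_sp hx, (fv v).map_neg]
  have : -x + 1 = 1 - x := by ring
  rw [this, Pool.Agent.Y729.FW.fv_eq_one_iff, Pool.Agent.Y729.FW.fv_eq_one_iff]

open Classical in
theorem nn_le_mul (s T : Finset (Pr K)) : nn s ≤ nn T * nn (s \ T) := by
  have h1 : nn s ≤ nn (T ∪ (s \ T)) := by
    refine nn_mono ?_
    rw [Finset.union_sdiff_self_eq_union]
    exact Finset.subset_union_right
  rwa [nn_union Finset.disjoint_sdiff] at h1

open Classical in
/-- the number of the `x` of all heights with radical outside `T₀` at most `Y` -/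
theorem count₀ (T₀ : Finset (Pr K)) (ε : ℝ) (hε : 0 < ε) : ∃ D : ℝ, 0 < D ∧
    ∀ Y : ℝ, 1 ≤ Y → {x : K | Pt (-x) ∧ nn (sp (-x) \ T₀) ≤ Y}.Finite ∧
      ({x : K | Pt (-x) ∧ nn (sp (-x) \ T₀) ≤ Y}.ncard : ℝ) ≤ D * Y ^ (2 / 3 + ε) := by
  obtain ⟨D, hD, h⟩ := Pool.Agent.Y728.mainK K ε hε
  have hT := one_le_nn T₀
  have hTp := nn_pos T₀
  refine ⟨D * nn T₀ ^ (2 / 3 + ε), by positivity, fun Y hY => ?_⟩
  refine fin_of_bound _ _ fun F hF => ?_
  have h1 := h (nn T₀ * Y) (by nlinarith) (F.image fun x => -x) fun y hy => by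
    obtain ⟨x, hx, rfl⟩ := Finset.mem_image.1 hy
    have h2 := hF hx
    exact ⟨h2.1, (nn_le_mul _ T₀).trans (mul_le_mul_of_nonneg_left h2.2 hTp.le)⟩
  rw [Finset.card_image_of_injective _ neg_injective] at h1
  refine h1.trans (le_of_eq ?_)
  rw [Real.mul_rpow hTp.le (by linarith)]
  ring

/-- admissible systems of sets of primes: `s x` contains all primes at which `x` or `1 - x` is not a
unit, outside a fixed finite set -/
def Adm (s : K → Finset (Pr K)) : Prop :=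
  ∃ T₀ : Finset (Pr K), ∀ x : K, Pt (-x) → ∀ v ∈ sp (-x), v ∉ T₀ → v ∈ s x

theorem count {s : K → Finset (Pr K)} (hs : Adm s) (ε : ℝ) (hε : 0 < ε) : ∃ D : ℝ, 0 < D ∧
    ∀ Y : ℝ, 1 ≤ Y → {x : K | Pt (-x) ∧ nn (s x) ≤ Y}.Finite ∧
      ({x : K | Pt (-x) ∧ nn (s x) ≤ Y}.ncard : ℝ) ≤ D * Y ^ (2 / 3 + ε) := by
  classical
  obtain ⟨T₀, hT₀⟩ := hs
  obtain ⟨D, hD, h⟩ := count₀ T₀ ε hε
  refine ⟨D, hD, fun Y hY => ?_⟩
  obtain ⟨h1, h2⟩ := h Y hY
  have hsub : {x : K | Pt (-x) ∧ nn (s x) ≤ Y} ⊆ {x : K | Pt (-x) ∧ nn (sp (-x) \ T₀) ≤ Y} := by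
    rintro x ⟨hx, hx2⟩
    refine ⟨hx, (nn_mono fun v hv => ?_).trans hx2⟩
    rw [Finset.mem_sdiff] at hv
    exact hT₀ x hx v hv.1 hv.2
  refine ⟨h1.subset hsub, le_trans ?_ h2⟩
  exact_mod_cast Set.ncard_le_ncard hsub h1

/-- distinct primes which divide an ideal: their product divides it -/
theorem prod_dvd (s : Finset (Pr K)) (I : Ideal (𝓞 K)) (h : ∀ v ∈ s, v.asIdeal ∣ I) :
    ∏ v ∈ s, v.asIdeal ∣ I := by
  classical
  have hinj : Function.Injective fun v : Pr K => v.asIdeal := fun v w h =>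
    HeightOneSpectrum.ext h
  have h1 : ∏ J ∈ s.image (fun v : Pr K => v.asIdeal), J ∣ I := by
    apply Finset.prod_primes_dvd
    · intro J hJ
      obtain ⟨v, _, rfl⟩ := Finset.mem_image.1 hJ
      exact v.prime
    · intro J hJ
      obtain ⟨v, hv, rfl⟩ := Finset.mem_image.1 hJ
      exact h v hv
  rwa [Finset.prod_image (fun v _ w _ h => hinj h)] at h1

theorem norm_prod (s : Finset (Pr K)) :
    ((Ideal.absNorm (∏ v ∈ s, v.asIdeal) : ℕ) : ℝ) = nn s := by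
  rw [map_prod, Nat.cast_prod]
  rfl

/-- the nonzero ideals of norm at most `X` -/
def Box (K : Type) [Field K] [NumberField K] (X : ℝ) : Set (Ideal (𝓞 K)) :=
  {I | I ≠ ⊥ ∧ (Ideal.absNorm I : ℝ) ≤ X}

theorem box_fin (X : ℝ) : (Box K X).Finite :=
  (Pool.Agent.H57R3.VJ.ideal_finite (K := K) X).subset fun _ h => h.2

/-- the nonzero ideals divisible by the primes of `s` -/
def Mult (s : Finset (Pr K)) : Set (Ideal (𝓞 K)) := {I | ∀ v ∈ s, v.asIdeal ∣ I}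

/-- the ideals of the box divisible by the primes of `s` correspond to those of a smaller box -/
theorem mult_box (s : Finset (Pr K)) (X : ℝ) :
    (Mult s ∩ Box K X) = (fun J => (∏ v ∈ s, v.asIdeal) * J) '' Box K (X * (nn s)⁻¹) := by
  have hp := nn_pos s
  ext I
  constructor
  · rintro ⟨h4, h0, h3⟩
    obtain ⟨J, hJ⟩ := prod_dvd s I h4
    refine ⟨J, ⟨?_, ?_⟩, hJ.symm⟩
    · rintro rfl
      apply h0
      rw [hJ]
      exact mul_zero _
    · show (Ideal.absNorm J : ℝ) ≤ X * (nn s)⁻¹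
      rw [← div_eq_mul_inv, le_div_iff₀ hp]
      have h5 : (Ideal.absNorm I : ℝ) = nn s * Ideal.absNorm J := by
        rw [← norm_prod, hJ, map_mul, Nat.cast_mul]
      linarith
  · rintro ⟨J, ⟨h0, h1⟩, rfl⟩
    rw [← div_eq_mul_inv, le_div_iff₀ hp] at h1
    refine ⟨fun v hv => (Finset.dvd_prod_of_mem _ hv).mul_right _, ?_, ?_⟩
    · intro h
      rcases mul_eq_zero.1 (show (∏ v ∈ s, v.asIdeal) * J = 0 from h) with h2 | h2
      · have h3 := norm_prod s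
        rw [h2] at h3
        rw [map_zero, Nat.cast_zero] at h3
        linarith
      · exact h0 h2
    · show ((Ideal.absNorm ((∏ v ∈ s, v.asIdeal) * J) : ℕ) : ℝ) ≤ X
      rw [map_mul, Nat.cast_mul, norm_prod]
      linarith

theorem mult_card (s : Finset (Pr K)) (X : ℝ) :
    (Mult s ∩ Box K X).ncard = (Box K (X * (nn s)⁻¹)).ncard := by
  rw [mult_box]
  refine Set.ncard_image_of_injective _ fun J J' h => ?_
  have h0 : (∏ v ∈ s, v.asIdeal) ≠ 0 := by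
    intro h2
    have h3 := norm_prod s
    rw [h2, map_zero, Nat.cast_zero] at h3
    have := nn_pos s
    linarith
  exact mul_left_cancel₀ h0 h

theorem box_empty {X : ℝ} (hX : X < 1) : Box K X = ∅ := by
  rw [Set.eq_empty_iff_forall_notMem]
  rintro I ⟨h0, h1⟩
  have h2 : Ideal.absNorm I ≠ 0 := by
    rw [Ne, Ideal.absNorm_eq_zero_iff]
    exact h0
  have h3 : (1 : ℝ) ≤ Ideal.absNorm I := by exact_mod_cast Nat.one_le_iff_ne_zero.2 h2
  linarith

theorem nn_le_of_mem {s : Finset (Pr K)} {X : ℝ} {I : Ideal (𝓞 K)} (h : I ∈ Mult s)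
    (hI : I ∈ Box K X) : nn s ≤ X := by
  by_contra hc
  have h1 : I ∈ Mult s ∩ Box K X := ⟨h, hI⟩
  rw [mult_box, box_empty] at h1
  · rw [Set.image_empty] at h1
    exact h1
  · rw [← div_eq_mul_inv, div_lt_one (nn_pos s)]
    exact not_le.1 hc

theorem box_count (K : Type) [Field K] [NumberField K] : ∃ C : ℝ, 0 < C ∧
    ∀ X : ℝ, 0 ≤ X → ((Box K X).ncard : ℝ) ≤ C * X := by
  obtain ⟨C, hC, h⟩ := Pool.Agent.H57R3.VJ.ideals_card K
  refine ⟨C, hC, fun X hX0 => ?_⟩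
  rcases lt_or_ge X 1 with hX | hX
  · rw [box_empty hX, Set.ncard_empty, Nat.cast_zero]
    positivity
  · have hf := Pool.Agent.H57R3.VJ.ideal_finite (K := K) X
    have h1 : (Box K X).ncard ≤ {I : Ideal (𝓞 K) | (Ideal.absNorm I : ℝ) ≤ X}.ncard :=
      Set.ncard_le_ncard (fun _ h => h.2) hf
    have h2 : (({I : Ideal (𝓞 K) | (Ideal.absNorm I : ℝ) ≤ X}.ncard : ℕ) : ℝ) ≤ C * X := h X hX
    exact le_trans (by exact_mod_cast h1) h2

theorem mult_count {C : ℝ} (hC : ∀ X : ℝ, 0 ≤ X → ((Box K X).ncard : ℝ) ≤ C * X)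
    (s : Finset (Pr K)) {X : ℝ} (hX : 0 ≤ X) :
    ((Mult s ∩ Box K X).ncard : ℝ) ≤ C * X * (nn s)⁻¹ := by
  rw [mult_card]
  have hp := nn_pos s
  refine (hC _ (by positivity)).trans (le_of_eq ?_)
  ring

open Classical in
/-- the `x` such that all primes of `s x` divide `I` -/
def Sol (s : K → Finset (Pr K)) (I : Ideal (𝓞 K)) : Set K :=
  {x | Pt (-x) ∧ I ∈ Mult (s x)}

open Classical in
/-- **sum of the reciprocals of the radicals** -/
theorem recip_sum {s : K → Finset (Pr K)} (hs : Adm s) : ∀ δ : ℝ, 0 < δ → ∃ C : ℝ, 0 < C ∧ ∀ T : ℝ, 1 ≤ T →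
    ∀ A : Finset K, (∀ x ∈ A, Pt (-x) ∧ T < nn (s x)) →
      ∑ x ∈ A, (nn (s x))⁻¹ ≤ C * T ^ (-(1 / 3) + δ) := by
  intro δ hδ
  obtain ⟨D, hD, hcnt⟩ := count hs (min δ (1 / 6)) (by positivity)
  set a : ℝ := 2 / 3 + min δ (1 / 6) with ha
  have ha1 : a < 1 := by
    have := min_le_right δ (1 / 6 : ℝ)
    rw [ha]
    linarith
  have hr : (2 : ℝ) ^ (a - 1) < 1 := Real.rpow_lt_one_of_one_lt_of_neg one_lt_two (by linarith)
  have h2a : (0 : ℝ) < 2 ^ a := Real.rpow_pos_of_pos two_pos _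
  have hc0 : 0 < (2 : ℝ) ^ a / (1 - 2 ^ (a - 1)) := div_pos h2a (by linarith)
  refine ⟨D * ((2 : ℝ) ^ a / (1 - 2 ^ (a - 1))), by positivity, fun T hT A hA => ?_⟩
  have h3 : ∑ x ∈ A, (nn (s x))⁻¹ ≤
      D * ((2 : ℝ) ^ a / (1 - 2 ^ (a - 1))) * T ^ (a - 1) := by
    refine tail_sum A (fun x => nn (s x)) hD.le ha1 hT (fun x hx => (hA x hx).2) ?_
    intro Y hY B hBA hB
    obtain ⟨h4, h5⟩ := hcnt Y hY
    have h6 : (B : Set K) ⊆ {x : K | Pt (-x) ∧ nn (s x) ≤ Y} := fun x hx =>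
      ⟨(hA x (hBA hx)).1, hB x hx⟩
    have h8 := Set.ncard_le_ncard h6 h4
    rw [Set.ncard_coe_finset] at h8
    exact le_trans (by exact_mod_cast h8) h5
  refine h3.trans (mul_le_mul_of_nonneg_left ?_ (by positivity))
  apply Real.rpow_le_rpow_of_exponent_le hT
  have := min_le_left δ (1 / 6 : ℝ)
  rw [ha]
  linarith

open Classical in
theorem recip_all {s : K → Finset (Pr K)} (hs : Adm s) : ∃ C : ℝ, 0 < C ∧
    ∀ A : Finset K, (∀ x ∈ A, Pt (-x)) → ∑ x ∈ A, (nn (s x))⁻¹ ≤ C := by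
  obtain ⟨C, hC, h⟩ := recip_sum hs (1 / 6) (by norm_num)
  obtain ⟨D, hD, hcnt⟩ := count hs (1 / 6) (by norm_num)
  refine ⟨D + C, by positivity, fun A hA => ?_⟩
  rw [← Finset.sum_filter_add_sum_filter_not A (fun x => nn (s x) ≤ 1)]
  refine add_le_add ?_ ?_
  · have h3 : ∀ x ∈ A.filter (fun x => nn (s x) ≤ 1), (nn (s x))⁻¹ ≤ 1 :=
      fun x _ => inv_le_one_of_one_le₀ (one_le_nn _)
    refine (Finset.sum_le_sum h3).trans ?_
    rw [Finset.sum_const, nsmul_eq_mul, mul_one]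
    obtain ⟨h4, h5⟩ := hcnt 1 le_rfl
    rw [Real.one_rpow, mul_one] at h5
    have h6 : ((A.filter (fun x => nn (s x) ≤ 1) : Finset K) : Set K) ⊆
        {x : K | Pt (-x) ∧ nn (s x) ≤ 1} := by
      intro x hx
      rw [Finset.mem_coe, Finset.mem_filter] at hx
      exact ⟨hA x hx.1, hx.2⟩
    have h7 := Set.ncard_le_ncard h6 h4
    rw [Set.ncard_coe_finset] at h7
    exact le_trans (by exact_mod_cast h7) h5
  · have h3 := h 1 le_rfl (A.filter fun x => ¬ nn (s x) ≤ 1) (fun x hx => by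
      rw [Finset.mem_filter] at hx
      exact ⟨hA x hx.1, not_le.1 hx.2⟩)
    rwa [Real.one_rpow, mul_one] at h3

open Classical in
theorem sol_sub {s : K → Finset (Pr K)} {I : Ideal (𝓞 K)} {X : ℝ} (hI : I ∈ Box K X) :
    Sol s I ⊆ {x : K | Pt (-x) ∧ nn (s x) ≤ X} := fun _ hx =>
  ⟨hx.1, nn_le_of_mem hx.2 hI⟩

theorem sol_fin {s : K → Finset (Pr K)} (hs : Adm s) {I : Ideal (𝓞 K)} (hI : I ≠ ⊥) : (Sol s I).Finite := by
  classical
  obtain ⟨D, hD, h⟩ := count hs (1 / 6) (by norm_num)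
  have h1 : I ∈ Box K (max 1 (Ideal.absNorm I : ℝ)) := ⟨hI, le_max_right _ _⟩
  exact (h _ (le_max_left _ _)).1.subset (sol_sub h1)

open Classical in
/-- **the rarity of the ideals with a solution of large radical** -/
theorem rare {s : K → Finset (Pr K)} (hs : Adm s) (δ : ℝ) (hδ : 0 < δ) : ∃ C : ℝ, 0 < C ∧
    ∀ T : ℝ, 1 ≤ T → ∀ X : ℝ, 0 ≤ X →
      (({I ∈ Box K X | ∃ x ∈ Sol s I, T < nn (s x)}.ncard : ℕ) : ℝ) ≤
        C * X * T ^ (-(1 / 3) + δ) := by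
  obtain ⟨C1, hC1, hb⟩ := box_count K
  obtain ⟨C, hC, h⟩ := recip_sum hs δ hδ
  refine ⟨C1 * C, by positivity, fun T hT X hX => ?_⟩
  obtain ⟨D, hD, hcnt⟩ := count hs (1 / 6) (by norm_num)
  have hfin : {x : K | Pt (-x) ∧ nn (s x) ≤ X}.Finite :=
    (hcnt (max 1 X) (le_max_left _ _)).1.subset fun x hx => ⟨hx.1, hx.2.trans (le_max_right _ _)⟩
  set A : Finset K := hfin.toFinset.filter fun x => T < nn (s x) with hA
  have hmemA : ∀ x ∈ A, Pt (-x) ∧ T < nn (s x) := by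
    intro x hx
    rw [hA, Finset.mem_filter, Set.Finite.mem_toFinset] at hx
    exact ⟨hx.1.1, hx.2⟩
  have hsub : {I ∈ Box K X | ∃ x ∈ Sol s I, T < nn (s x)} ⊆
      ⋃ x ∈ A, (Mult (s x) ∩ Box K X) := by
    rintro I ⟨hI, x, hx, hxT⟩
    refine Set.mem_iUnion₂.2 ⟨x, ?_, hx.2, hI⟩
    rw [hA, Finset.mem_filter, Set.Finite.mem_toFinset]
    exact ⟨sol_sub hI hx, hxT⟩
  have hUf : (⋃ x ∈ A, (Mult (s x) ∩ Box K X)).Finite :=
    Set.Finite.biUnion A.finite_toSet fun x _ => (box_fin X).subset Set.inter_subset_right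
  have h1 := Set.ncard_le_ncard hsub hUf
  have h2 : (⋃ x ∈ A, (Mult (s x) ∩ Box K X)).ncard ≤
      ∑ x ∈ A, (Mult (s x) ∩ Box K X).ncard := Finset.set_ncard_biUnion_le A _
  calc (({I ∈ Box K X | ∃ x ∈ Sol s I, T < nn (s x)}.ncard : ℕ) : ℝ) ≤
      ∑ x ∈ A, ((Mult (s x) ∩ Box K X).ncard : ℝ) := by exact_mod_cast h1.trans h2
    _ ≤ ∑ x ∈ A, C1 * X * (nn (s x))⁻¹ :=
        Finset.sum_le_sum fun x _ => mult_count hb _ hX
    _ = C1 * X * ∑ x ∈ A, (nn (s x))⁻¹ := by rw [Finset.mul_sum]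
    _ ≤ C1 * X * (C * T ^ (-(1 / 3) + δ)) :=
        mul_le_mul_of_nonneg_left (h T hT A hmemA) (by positivity)
    _ = C1 * C * X * T ^ (-(1 / 3) + δ) := by ring

open Classical in
/-- the sum of the numbers of solutions over the ideals of a box -/
theorem sum_sol {s : K → Finset (Pr K)} {X : ℝ} {A : Finset K}
    (hA : ∀ I ∈ Box K X, Sol s I ⊆ A) (hA' : ∀ x ∈ A, Pt (-x)) :
    ∑ I ∈ (box_fin (K := K) X).toFinset, ((Sol s I).ncard : ℝ) =
      ∑ x ∈ A, ((Mult (s x) ∩ Box K X).ncard : ℝ) := by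
  have hcard : ∀ I ∈ (box_fin (K := K) X).toFinset, ((Sol s I).ncard : ℝ) =
      ∑ x ∈ A, if I ∈ Mult (s x) then (1 : ℝ) else 0 := by
    intro I hI
    rw [Set.Finite.mem_toFinset] at hI
    have h1 : Sol s I = ((A.filter fun x => I ∈ Mult (s x) : Finset K) : Set K) := by
      ext x
      rw [Finset.mem_coe, Finset.mem_filter]
      exact ⟨fun hx => ⟨hA I hI hx, hx.2⟩, fun hx => ⟨hA' x hx.1, hx.2⟩⟩
    rw [h1, Set.ncard_coe_finset, Finset.card_filter]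
    push_cast
    rfl
  rw [Finset.sum_congr rfl hcard, Finset.sum_comm]
  refine Finset.sum_congr rfl fun x _ => ?_
  have h2 : Mult (s x) ∩ Box K X =
      (((box_fin (K := K) X).toFinset.filter fun I => I ∈ Mult (s x) : Finset _) :
        Set (Ideal (𝓞 K))) := by
    ext I
    rw [Finset.mem_coe, Finset.mem_filter, Set.Finite.mem_toFinset]
    exact ⟨fun h => ⟨h.2, h.1⟩, fun h => ⟨h.2, h.1⟩⟩
  rw [h2, Set.ncard_coe_finset, Finset.card_filter]
  push_cast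
  rfl

open Classical in
/-- **the number of solutions on average** -/
theorem average {s : K → Finset (Pr K)} (hs : Adm s) : ∃ C : ℝ, 0 < C ∧ ∀ X : ℝ, 0 ≤ X →
    ∑ I ∈ (box_fin (K := K) X).toFinset, ((Sol s I).ncard : ℝ) ≤ C * X := by
  obtain ⟨C1, hC1, hb⟩ := box_count K
  obtain ⟨C, hC, h⟩ := recip_all hs
  refine ⟨C1 * C, by positivity, fun X hX => ?_⟩
  obtain ⟨D, hD, hcnt⟩ := count hs (1 / 6) (by norm_num)
  have hfin : {x : K | Pt (-x) ∧ nn (s x) ≤ X}.Finite :=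
    (hcnt (max 1 X) (le_max_left _ _)).1.subset fun x hx => ⟨hx.1, hx.2.trans (le_max_right _ _)⟩
  have hA : ∀ I ∈ Box K X, Sol s I ⊆ hfin.toFinset := by
    intro I hI x hx
    rw [Finset.mem_coe, Set.Finite.mem_toFinset]
    exact sol_sub hI hx
  have hA' : ∀ x ∈ hfin.toFinset, Pt (-x) := by
    intro x hx
    rw [Set.Finite.mem_toFinset] at hx
    exact hx.1
  rw [sum_sol hA hA']
  calc ∑ x ∈ hfin.toFinset, ((Mult (s x) ∩ Box K X).ncard : ℝ) ≤
      ∑ x ∈ hfin.toFinset, C1 * X * (nn (s x))⁻¹ :=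
        Finset.sum_le_sum fun x _ => mult_count hb _ hX
    _ = C1 * X * ∑ x ∈ hfin.toFinset, (nn (s x))⁻¹ := by rw [Finset.mul_sum]
    _ ≤ C1 * X * C := mul_le_mul_of_nonneg_left (h _ hA') (by positivity)
    _ = C1 * C * X := by ring

end Pool.Agent.K3h24.SB
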