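import Mathlib
import Pool.Agent.K3h24.SB.Ideals

/-!
# The unit equation outside random ideals: the limit law and the mean value
-/

set_option autoImplicit false

namespace Pool.Agent.K3h24.SB

open NumberField IsDedekindDomain Finset Filter Topology nonZeroDivisors
open Pool.Agent.H691R3 (fv Nv)
open Pool.Agent.TH876.Loc

variable {K : Type} [Field K] [NumberField K]

theorem box_tendsto (K : Type) [Field K] [NumberField K] : ∃ ρ : ℝ, 0 < ρ ∧
    Tendsto (fun X : ℝ => ((Box K X).ncard : ℝ) / X) atTop (𝓝 ρ) := by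
  refine ⟨_, ?_, (NumberField.Ideal.tendsto_norm_le_div_atTop₀ K).congr fun X => ?_⟩
  · have h1 := NumberField.Units.regulator_pos K
    have h2 : 0 < classNumber K := Fintype.card_pos
    have h3 := NumberField.Units.torsionOrder_pos K
    have h4 : (0 : ℝ) < |(discr K : ℝ)| := by
      rw [abs_pos]
      exact_mod_cast NumberField.discr_ne_zero K
    positivity
  · congr 2
    rw [← Nat.card_coe_set_eq]
    refine Nat.card_congr ⟨fun I => ⟨I.1.1, mem_nonZeroDivisors_iff_ne_zero.1 I.1.2, I.2⟩,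
      fun I => ⟨⟨I.1, mem_nonZeroDivisors_iff_ne_zero.2 I.2.1⟩, I.2.2⟩, fun I => rfl, fun I => rfl⟩

theorem box_pos {X : ℝ} (hX : 1 ≤ X) : 0 < ((Box K X).ncard : ℝ) := by
  have h : (⊤ : Ideal (𝓞 K)) ∈ Box K X := by
    refine ⟨top_ne_bot, ?_⟩
    rw [Ideal.absNorm_top]
    simpa using hX
  have h2 : 0 < (Box K X).ncard := (Set.ncard_pos (box_fin X)).2 ⟨_, h⟩
  exact_mod_cast h2

/-- a lower bound for the boxes -/
theorem box_low (K : Type) [Field K] [NumberField K] :
    ∃ c : ℝ, 0 < c ∧ ∀ X : ℝ, 1 ≤ X → c * X ≤ (Box K X).ncard := by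
  obtain ⟨ρ, hρ, hb⟩ := box_tendsto K
  obtain ⟨N, hN⟩ := eventually_atTop.1 (hb.eventually_const_lt (show ρ / 2 < ρ by linarith))
  have hN1 : 0 < max N 1 := lt_max_of_lt_right one_pos
  refine ⟨min (ρ / 2) (max N 1)⁻¹, by positivity, fun X hX => ?_⟩
  have hX0 : 0 < X := by linarith
  rcases le_total N X with hNX | hNX
  · have h1 := hN X hNX
    rw [lt_div_iff₀ hX0] at h1
    have h2 : min (ρ / 2) (max N 1)⁻¹ * X ≤ ρ / 2 * X :=
      mul_le_mul_of_nonneg_right (min_le_left _ _) hX0.le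
    linarith
  · have h1 : min (ρ / 2) (max N 1)⁻¹ * X ≤ (max N 1)⁻¹ * X :=
      mul_le_mul_of_nonneg_right (min_le_right _ _) hX0.le
    have h2 : (max N 1)⁻¹ * X ≤ 1 := by
      rw [inv_mul_le_iff₀ hN1, mul_one]
      exact hNX.trans (le_max_left _ _)
    have h3 : (1 : ℝ) ≤ (Box K X).ncard := by
      have h4 := box_pos (K := K) hX
      have h5 : 0 < (Box K X).ncard := by exact_mod_cast h4
      exact_mod_cast h5
    linarith

/-- the set `P` of ideals has the density `d` -/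
def HasDens (P : Set (Ideal (𝓞 K))) (d : ℝ) : Prop :=
  Tendsto (fun X : ℝ => ((P ∩ Box K X).ncard : ℝ) / (Box K X).ncard) atTop (𝓝 d)

theorem mult_dens (s : Finset (Pr K)) : HasDens (Mult s) (nn s)⁻¹ := by
  obtain ⟨ρ, hρ, h⟩ := box_tendsto K
  have hp := nn_pos s
  have h1 : Tendsto (fun X : ℝ => ((Box K (X * (nn s)⁻¹)).ncard : ℝ) / (X * (nn s)⁻¹)) atTop
      (𝓝 ρ) := h.comp (tendsto_id.atTop_mul_const (inv_pos.2 hp))
  have h2 := ((h1.mul_const (nn s)⁻¹).div h hρ.ne')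
  have e : ρ * (nn s)⁻¹ / ρ = (nn s)⁻¹ := by field_simp
  rw [e] at h2
  refine h2.congr' ?_
  filter_upwards [eventually_ge_atTop 1] with X hX
  have hX0 : (0 : ℝ) < X := by linarith
  have hb := box_pos (K := K) hX
  show ((Box K (X * (nn s)⁻¹)).ncard : ℝ) / (X * (nn s)⁻¹) * (nn s)⁻¹ /
    (((Box K X).ncard : ℝ) / X) = ((Mult s ∩ Box K X).ncard : ℝ) / (Box K X).ncard
  rw [mult_card]
  field_simp

theorem HasDens.diff {P Q : Set (Ideal (𝓞 K))} {a b : ℝ} (hP : HasDens P a) (hQ : HasDens Q b)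
    (h : Q ⊆ P) : HasDens (P \ Q) (a - b) := by
  refine (Tendsto.sub hP hQ).congr fun X => ?_
  have hf : (Q ∩ Box K X).Finite := (box_fin X).subset Set.inter_subset_right
  have hf' : (P ∩ Box K X).Finite := (box_fin X).subset Set.inter_subset_right
  have h1 : (P \ Q) ∩ Box K X = (P ∩ Box K X) \ (Q ∩ Box K X) := by
    ext I
    constructor
    · rintro ⟨⟨h1, h2⟩, h3⟩
      exact ⟨⟨h1, h3⟩, fun h4 => h2 h4.1⟩
    · rintro ⟨⟨h1, h2⟩, h3⟩
      exact ⟨⟨h1, fun h4 => h3 ⟨h4, h2⟩⟩, h2⟩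
  have h2 := Set.ncard_sdiff_add_ncard_of_subset (Set.inter_subset_inter_left (Box K X) h) hf'
  rw [h1, ← sub_div]
  congr 1
  have h3 : (((P ∩ Box K X) \ (Q ∩ Box K X)).ncard : ℝ) + (Q ∩ Box K X).ncard =
      (P ∩ Box K X).ncard := by exact_mod_cast h2
  linarith

/-- divisible by the primes of `A`, not divisible by those of `B` -/
def Ex (A B : Finset (Pr K)) : Set (Ideal (𝓞 K)) :=
  {I | (∀ v ∈ A, v.asIdeal ∣ I) ∧ ∀ v ∈ B, ¬ v.asIdeal ∣ I}

open Classical in
theorem ex_dens (B : Finset (Pr K)) : ∀ A : Finset (Pr K), ∃ d, HasDens (Ex A B) d := by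
  induction B using Finset.induction_on with
  | empty =>
    intro A
    refine ⟨(nn A)⁻¹, ?_⟩
    have h : Ex A ∅ = Mult A := by
      ext I
      exact ⟨fun h => h.1, fun h => ⟨h, fun v hv => absurd hv (Finset.notMem_empty v)⟩⟩
    rw [h]
    exact mult_dens A
  | insert v B hv ih =>
    intro A
    obtain ⟨a, ha⟩ := ih A
    obtain ⟨b, hb⟩ := ih (insert v A)
    refine ⟨a - b, ?_⟩
    have hsub : Ex (insert v A) B ⊆ Ex A B := fun I hI =>
      ⟨fun w hw => hI.1 w (Finset.mem_insert_of_mem hw), hI.2⟩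
    have h : Ex A (insert v B) = Ex A B \ Ex (insert v A) B := by
      ext I
      constructor
      · rintro ⟨h1, h2⟩
        exact ⟨⟨h1, fun w hw => h2 w (Finset.mem_insert_of_mem hw)⟩,
          fun h3 => h2 v (Finset.mem_insert_self _ _) (h3.1 v (Finset.mem_insert_self _ _))⟩
      · rintro ⟨⟨h1, h2⟩, h3⟩
        refine ⟨h1, fun w hw => ?_⟩
        rcases Finset.mem_insert.1 hw with rfl | hw
        · intro h4
          refine h3 ⟨fun u hu => ?_, h2⟩
          rcases Finset.mem_insert.1 hu with rfl | hu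
          · exact h4
          · exact h1 u hu
        · exact h2 w hw
    rw [h]
    exact ha.diff hb hsub

open Classical in
/-- a property of the divisibility by finitely many primes has a density -/
theorem fin_dens (V : Finset (Pr K)) (Q : Set (Finset (Pr K))) :
    ∃ d, HasDens {I : Ideal (𝓞 K) | (V.filter fun v => v.asIdeal ∣ I) ∈ Q} d := by
  choose f hf using fun A : Finset (Pr K) => ex_dens (V \ A) A
  refine ⟨∑ A ∈ V.powerset.filter (fun A => A ∈ Q), f A, ?_⟩
  have h1 : Tendsto (fun X : ℝ => ∑ A ∈ V.powerset.filter (fun A => A ∈ Q),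
      ((Ex A (V \ A) ∩ Box K X).ncard : ℝ) / (Box K X).ncard) atTop
      (𝓝 (∑ A ∈ V.powerset.filter (fun A => A ∈ Q), f A)) :=
    tendsto_finsetSum _ fun A _ => hf A
  refine h1.congr fun X => ?_
  rw [← Finset.sum_div]
  congr 1
  set B := (box_fin (K := K) X).toFinset with hB
  have e1 : ∀ A ∈ V.powerset.filter (fun A => A ∈ Q), ((Ex A (V \ A) ∩ Box K X).ncard : ℝ) =
      (((B.filter fun I => (V.filter fun v => v.asIdeal ∣ I) ∈ Q).filter
        fun I => (V.filter fun v => v.asIdeal ∣ I) = A).card : ℝ) := by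
    intro A hA
    rw [Finset.mem_filter, Finset.mem_powerset] at hA
    rw [← Set.ncard_coe_finset]
    congr 2
    ext I
    rw [Finset.mem_coe, Finset.mem_filter, Finset.mem_filter, hB, Set.Finite.mem_toFinset]
    constructor
    · rintro ⟨⟨h2, h3⟩, h4⟩
      have h5 : (V.filter fun v => v.asIdeal ∣ I) = A := by
        ext v
        rw [Finset.mem_filter]
        constructor
        · rintro ⟨h6, h7⟩
          by_contra hc
          exact h3 v (Finset.mem_sdiff.2 ⟨h6, hc⟩) h7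
        · exact fun h6 => ⟨hA.1 h6, h2 v h6⟩
      exact ⟨⟨h4, by rw [h5]; exact hA.2⟩, h5⟩
    · rintro ⟨⟨h4, h5⟩, h6⟩
      refine ⟨⟨fun v hv => ?_, fun v hv hd => ?_⟩, h4⟩
      · rw [← h6, Finset.mem_filter] at hv
        exact hv.2
      · rw [Finset.mem_sdiff, ← h6, Finset.mem_filter] at hv
        exact hv.2 ⟨hv.1, hd⟩
  rw [Finset.sum_congr rfl e1]
  have e2 : ({I : Ideal (𝓞 K) | (V.filter fun v => v.asIdeal ∣ I) ∈ Q} ∩ Box K X).ncard =
      (B.filter fun I => (V.filter fun v => v.asIdeal ∣ I) ∈ Q).card := by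
    rw [← Set.ncard_coe_finset]
    congr 1
    ext I
    rw [Finset.mem_coe, Finset.mem_filter, hB, Set.Finite.mem_toFinset]
    exact ⟨fun h => ⟨h.2, h.1⟩, fun h => ⟨h.2, h.1⟩⟩
  rw [e2]
  have e3 := Finset.card_eq_sum_card_fiberwise
    (f := fun I : Ideal (𝓞 K) => (V.filter fun v => v.asIdeal ∣ I))
    (s := B.filter fun I => (V.filter fun v => v.asIdeal ∣ I) ∈ Q)
    (t := V.powerset.filter (fun A => A ∈ Q)) (fun I hI => by
      have hI' := (Finset.mem_filter.1 (Finset.mem_coe.1 hI)).2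
      exact Finset.mem_coe.2 (Finset.mem_filter.2
        ⟨Finset.mem_powerset.2 (Finset.filter_subset _ _), hI'⟩))
  rw [e3]
  push_cast
  rfl

/-- a set which can be approximated by sets with densities has a density -/
theorem dens_of_approx (P : Set (Ideal (𝓞 K))) (h : ∀ ε : ℝ, 0 < ε → ∃ (Q : Set (Ideal (𝓞 K)))
    (d : ℝ), HasDens Q d ∧ ∀ X : ℝ, 1 ≤ X →
      |((P ∩ Box K X).ncard : ℝ) - (Q ∩ Box K X).ncard| ≤ ε * (Box K X).ncard) :
    ∃ d, HasDens P d := by
  have hc : CauchySeq (fun X : ℝ => ((P ∩ Box K X).ncard : ℝ) / (Box K X).ncard) := by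
    rw [Metric.cauchySeq_iff]
    intro ε hε
    obtain ⟨Q, d, hQ, hPQ⟩ := h (ε / 4) (by positivity)
    have h1 : ∀ᶠ X : ℝ in atTop, |((Q ∩ Box K X).ncard : ℝ) / (Box K X).ncard - d| < ε / 4 := by
      have := Metric.tendsto_nhds.1 hQ (ε / 4) (by positivity)
      exact this
    obtain ⟨N, hN⟩ := eventually_atTop.1 h1
    have h2 : ∀ X : ℝ, max N 1 ≤ X →
        |((P ∩ Box K X).ncard : ℝ) / (Box K X).ncard - d| < ε / 2 := by
      intro X hX
      have hX1 : 1 ≤ X := (le_max_right _ _).trans hX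
      have h3 := hN X ((le_max_left _ _).trans hX)
      have hb := box_pos (K := K) hX1
      have h4 : |((P ∩ Box K X).ncard : ℝ) / (Box K X).ncard -
          ((Q ∩ Box K X).ncard : ℝ) / (Box K X).ncard| ≤ ε / 4 := by
        rw [← sub_div, abs_div, abs_of_pos hb, div_le_iff₀ hb]
        exact hPQ X hX1
      have h5 := abs_sub_le (((P ∩ Box K X).ncard : ℝ) / (Box K X).ncard)
        (((Q ∩ Box K X).ncard : ℝ) / (Box K X).ncard) d
      linarith
    refine ⟨max N 1, fun X hX Y hY => ?_⟩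
    rw [Real.dist_eq]
    have h3 := h2 X hX
    have h4 := h2 Y hY
    have h5 := abs_sub_le (((P ∩ Box K X).ncard : ℝ) / (Box K X).ncard) d
        (((P ∩ Box K Y).ncard : ℝ) / (Box K Y).ncard)
    rw [abs_sub_comm d] at h5
    linarith
  exact cauchySeq_tendsto_of_complete hc

open Classical in
/-- **the limit law**: every property of the set of solutions has a density -/
theorem law {s : K → Finset (Pr K)} (hs : Adm s) (P : Set (Set K)) :
    ∃ d, HasDens {I : Ideal (𝓞 K) | Sol s I ∈ P} d := by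
  obtain ⟨C, hC, hrare⟩ := rare hs (1 / 6) (by norm_num)
  obtain ⟨c, hc, hlow⟩ := box_low K
  refine dens_of_approx _ fun ε hε => ?_
  obtain ⟨T, hT1, hT⟩ : ∃ T : ℝ, 1 ≤ T ∧ C * T ^ (-(1 / 3 : ℝ) + 1 / 6) ≤ ε * c := by
    have h1 : Tendsto (fun T : ℝ => C * T ^ (-(1 / 3 : ℝ) + 1 / 6)) atTop (𝓝 (C * 0)) := by
      refine Tendsto.const_mul C ?_
      have : (-(1 / 3 : ℝ) + 1 / 6) = -(1 / 6) := by norm_num
      rw [this]
      exact tendsto_rpow_neg_atTop (by norm_num)
    rw [mul_zero] at h1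
    obtain ⟨N, hN⟩ := eventually_atTop.1 (h1.eventually_lt_const (show 0 < ε * c by positivity))
    exact ⟨max N 1, le_max_right _ _, (hN _ (le_max_left _ _)).le⟩
  obtain ⟨D, hD, hcnt⟩ := count hs (1 / 6) (by norm_num)
  set F := (hcnt T hT1).1.toFinset with hF
  have hFmem : ∀ x, x ∈ F ↔ Pt (-x) ∧ nn (s x) ≤ T := by
    intro x
    rw [hF, Set.Finite.mem_toFinset]
    rfl
  set V : Finset (Pr K) := F.biUnion fun x => s x with hV
  set Q : Set (Finset (Pr K)) := {A | {x : K | x ∈ F ∧ s x ⊆ A} ∈ P} with hQ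
  obtain ⟨d, hd⟩ := fin_dens V Q
  refine ⟨_, d, hd, fun X hX => ?_⟩
  have hkey : ∀ I : Ideal (𝓞 K), {x : K | x ∈ F ∧ s x ⊆ (V.filter fun v => v.asIdeal ∣ I)} =
      {x | x ∈ F ∧ x ∈ Sol s I} := by
    intro I
    ext x
    constructor
    · rintro ⟨h1, h2⟩
      exact ⟨h1, ((hFmem x).1 h1).1, fun v hv => (Finset.mem_filter.1 (h2 hv)).2⟩
    · rintro ⟨h1, h2⟩
      refine ⟨h1, fun v hv => Finset.mem_filter.2 ⟨?_, h2.2 v hv⟩⟩
      exact Finset.mem_biUnion.2 ⟨x, h1, hv⟩
  set R : Set (Ideal (𝓞 K)) := {I ∈ Box K X | ∃ x ∈ Sol s I, T < nn (s x)} with hR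
  have hRf : R.Finite := (box_fin X).subset fun I hI => hI.1
  have hgood : ∀ I ∈ Box K X, I ∉ R →
      ((V.filter fun v => v.asIdeal ∣ I) ∈ Q ↔ Sol s I ∈ P) := by
    intro I hI hIR
    have h1 : {x | x ∈ F ∧ x ∈ Sol s I} = Sol s I := by
      ext x
      refine ⟨fun h => h.2, fun h => ⟨(hFmem x).2 ⟨h.1, ?_⟩, h⟩⟩
      by_contra hc
      exact hIR ⟨hI, x, h, not_le.1 hc⟩
    show {x : K | x ∈ F ∧ s x ⊆ (V.filter fun v => v.asIdeal ∣ I)} ∈ P ↔ _
    rw [hkey, h1]
  have hle : ∀ A B : Set (Ideal (𝓞 K)), A ⊆ Box K X → B ⊆ Box K X → A ⊆ B ∪ R →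
      (A.ncard : ℝ) ≤ B.ncard + R.ncard := by
    intro A B hA hB hAB
    have h1 := Set.ncard_le_ncard hAB (((box_fin X).subset hB).union hRf)
    have h2 := Set.ncard_union_le B R
    exact_mod_cast h1.trans h2
  have h1 := hle ({I : Ideal (𝓞 K) | Sol s I ∈ P} ∩ Box K X)
    ({I : Ideal (𝓞 K) | (V.filter fun v => v.asIdeal ∣ I) ∈ Q} ∩ Box K X)
    Set.inter_subset_right Set.inter_subset_right (by
      rintro I ⟨h2, h3⟩
      by_cases h4 : I ∈ R
      · exact Or.inr h4
      · exact Or.inl ⟨(hgood I h3 h4).2 h2, h3⟩)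
  have h2 := hle ({I : Ideal (𝓞 K) | (V.filter fun v => v.asIdeal ∣ I) ∈ Q} ∩ Box K X)
    ({I : Ideal (𝓞 K) | Sol s I ∈ P} ∩ Box K X)
    Set.inter_subset_right Set.inter_subset_right (by
      rintro I ⟨h2, h3⟩
      by_cases h4 : I ∈ R
      · exact Or.inr h4
      · exact Or.inl ⟨(hgood I h3 h4).1 h2, h3⟩)
  have h3 := hrare T hT1 X (by linarith)
  have h4 := hlow X hX
  have h5 : (R.ncard : ℝ) ≤ ε * (Box K X).ncard := by
    calc (R.ncard : ℝ) ≤ C * X * T ^ (-(1 / 3 : ℝ) + 1 / 6) := h3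
      _ = C * T ^ (-(1 / 3 : ℝ) + 1 / 6) * X := by ring
      _ ≤ ε * c * X := mul_le_mul_of_nonneg_right hT (by linarith)
      _ = ε * (c * X) := by ring
      _ ≤ ε * (Box K X).ncard := mul_le_mul_of_nonneg_left h4 hε.le
  rw [abs_le]
  constructor <;> linarith

open Classical in
/-- **the mean value of the number of solutions** -/
theorem mean {s : K → Finset (Pr K)} (hs : Adm s) :
    Summable (fun x : {x : K // Pt (-x)} => (nn (s (x : K)))⁻¹) ∧
    Tendsto (fun X : ℝ => (∑ I ∈ (box_fin (K := K) X).toFinset, ((Sol s I).ncard : ℝ)) /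
      (Box K X).ncard) atTop
      (𝓝 (∑' x : {x : K // Pt (-x)}, (nn (s (x : K)))⁻¹)) := by
  obtain ⟨C, hC, hall⟩ := recip_all hs
  obtain ⟨C1, hC1, hbc⟩ := box_count K
  obtain ⟨ρ, hρ, hb⟩ := box_tendsto K
  obtain ⟨D, hD, hcnt⟩ := count hs (1 / 6) (by norm_num)
  have hsum : Summable (fun x : {x : K // Pt (-x)} => (nn (s (x : K)))⁻¹) := by
    refine summable_of_sum_le (fun x => (inv_pos.2 (nn_pos _)).le) (c := C) fun u => ?_
    have h1 := hall (u.map (Function.Embedding.subtype _)) (fun x hx => by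
      rw [Finset.mem_map] at hx
      obtain ⟨y, _, rfl⟩ := hx
      exact y.2)
    rw [Finset.sum_map] at h1
    exact h1
  refine ⟨hsum, ?_⟩
  have hterm : ∀ X : ℝ, 1 ≤ X → (∑ I ∈ (box_fin (K := K) X).toFinset, ((Sol s I).ncard : ℝ)) /
      (Box K X).ncard = ∑' x : {x : K // Pt (-x)},
        ((Mult (s (x : K)) ∩ Box K X).ncard : ℝ) / (Box K X).ncard := by
    intro X hX
    have hfin : {x : K | Pt (-x) ∧ nn (s x) ≤ X}.Finite := (hcnt X hX).1
    have hA : ∀ I ∈ Box K X, Sol s I ⊆ hfin.toFinset := by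
      intro I hI x hx
      rw [Finset.mem_coe, Set.Finite.mem_toFinset]
      exact sol_sub hI hx
    have hA' : ∀ x ∈ hfin.toFinset, Pt (-x) := by
      intro x hx
      rw [Set.Finite.mem_toFinset] at hx
      exact hx.1
    rw [sum_sol hA hA', Finset.sum_div]
    have hz : ∀ x : {x : K // Pt (-x)}, x ∉ hfin.toFinset.subtype (fun x => Pt (-x)) →
        ((Mult (s (x : K)) ∩ Box K X).ncard : ℝ) / (Box K X).ncard = 0 := by
      intro x hx
      rw [Finset.mem_subtype, Set.Finite.mem_toFinset] at hx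
      have h1 : Mult (s (x : K)) ∩ Box K X = ∅ := by
        rw [Set.eq_empty_iff_forall_notMem]
        rintro I ⟨h1, h2⟩
        exact hx ⟨x.2, nn_le_of_mem h1 h2⟩
      rw [h1, Set.ncard_empty, Nat.cast_zero, zero_div]
    rw [tsum_eq_sum (s := hfin.toFinset.subtype (fun x => Pt (-x))) hz]
    rw [Finset.sum_subtype_of_mem (p := fun x : K => Pt (-x))
      (fun x : K => ((Mult (s x) ∩ Box K X).ncard : ℝ) / (Box K X).ncard) hA']
  have hdom : Summable (fun x : {x : K // Pt (-x)} => (2 * C1 / ρ) * (nn (s (x : K)))⁻¹) :=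
    hsum.mul_left _
  have h1 := tendsto_tsum_of_dominated_convergence
    (f := fun (X : ℝ) (x : {x : K // Pt (-x)}) =>
      ((Mult (s (x : K)) ∩ Box K X).ncard : ℝ) / (Box K X).ncard)
    (𝓕 := atTop) hdom (fun x => mult_dens (s (x : K))) (by
      filter_upwards [eventually_ge_atTop 1, hb.eventually_const_lt
        (show ρ / 2 < ρ by linarith)] with X hX hX2 x
      have hX0 : 0 < X := by linarith
      have hbp := box_pos (K := K) hX
      have h2 := mult_count hbc (s (x : K)) hX0.le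
      rw [lt_div_iff₀ hX0] at hX2
      have hp := nn_pos (s (x : K))
      rw [Real.norm_of_nonneg (by positivity), div_le_iff₀ hbp]
      refine h2.trans ?_
      have h3 : 2 * C1 / ρ * (nn (s (x : K)))⁻¹ * (ρ / 2 * X) =
          C1 * X * (nn (s (x : K)))⁻¹ := by
        field_simp
      rw [← h3]
      exact mul_le_mul_of_nonneg_left hX2.le (by positivity))
  refine h1.congr' ?_
  filter_upwards [eventually_ge_atTop 1] with X hX
  exact (hterm X hX).symm

end Pool.Agent.K3h24.SB
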