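import Mathlib
import Pool.Agent.K3h24.SB.Law

/-!
# The limit law of the points whose primes divide a random ideal

`s : α → Finset (Pr K)` attaches to each point a finite set of primes, such that the sum of the
reciprocals of the norms converges. For an ideal `I` let `S s I` be the set of the points all of whose
primes divide `I`.
-/

set_option autoImplicit false
set_option linter.unusedSectionVars false

namespace Pool.Agent.K3h24.SB

open NumberField IsDedekindDomain Finset Filter Topology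
open Pool.Agent.TH876.Loc

variable {K : Type} [Field K] [NumberField K] {α : Type}

/-- the points all of whose primes divide `I` -/
def SS (s : α → Finset (Pr K)) (I : Ideal (𝓞 K)) : Set α := {p | I ∈ Mult (s p)}

theorem HasDens.unique {P : Set (Ideal (𝓞 K))} {a b : ℝ} (h1 : HasDens P a) (h2 : HasDens P b) :
    a = b := tendsto_nhds_unique h1 h2

theorem HasDens.nonneg {P : Set (Ideal (𝓞 K))} {a : ℝ} (h1 : HasDens P a) : 0 ≤ a :=
  ge_of_tendsto' h1 fun X => by positivity

/-- only the nonzero ideals matter -/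
theorem HasDens.congr {P Q : Set (Ideal (𝓞 K))} {a : ℝ} (h1 : HasDens P a)
    (h : ∀ I : Ideal (𝓞 K), I ≠ ⊥ → (I ∈ P ↔ I ∈ Q)) : HasDens Q a := by
  refine Tendsto.congr (fun X => ?_) h1
  have e : P ∩ Box K X = Q ∩ Box K X := by
    ext I
    constructor
    · rintro ⟨h2, h3⟩
      exact ⟨(h I h3.1).1 h2, h3⟩
    · rintro ⟨h2, h3⟩
      exact ⟨(h I h3.1).2 h2, h3⟩
  rw [e]

theorem HasDens.mono' {P Q : Set (Ideal (𝓞 K))} {a b : ℝ} (hP : HasDens P a) (hQ : HasDens Q b)
    (h : P ⊆ Q) : a ≤ b := by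
  refine le_of_tendsto_of_tendsto' hP hQ fun X => ?_
  have h1 : (P ∩ Box K X).ncard ≤ (Q ∩ Box K X).ncard :=
    Set.ncard_le_ncard (Set.inter_subset_inter_left _ h)
      ((box_fin X).subset Set.inter_subset_right)
  have h2 : ((P ∩ Box K X).ncard : ℝ) ≤ (Q ∩ Box K X).ncard := by exact_mod_cast h1
  exact div_le_div_of_nonneg_right h2 (Nat.cast_nonneg _)

theorem hasDens_univ : HasDens (Set.univ : Set (Ideal (𝓞 K))) 1 := by
  have h := mult_dens (K := K) ∅
  have e : Mult (K := K) ∅ = Set.univ :=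
    Set.eq_univ_of_forall fun I v hv => absurd hv (Finset.notMem_empty v)
  have e2 : (nn (∅ : Finset (Pr K)))⁻¹ = 1 := by unfold nn; simp
  rwa [e, e2] at h

/-- finitely many points of bounded norm -/
theorem ss_fin {s : α → Finset (Pr K)} (hs : Summable fun p => (nn (s p))⁻¹) (X : ℝ) :
    {p : α | nn (s p) ≤ X}.Finite := by
  rcases le_or_gt X 0 with hX | hX
  · refine Set.Finite.subset Set.finite_empty fun p hp => ?_
    have h1 := nn_pos (s p)
    have h2 : nn (s p) ≤ X := hp
    linarith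
  · have h1 := hs.tendsto_cofinite_zero.eventually_lt_const (show (0 : ℝ) < X⁻¹ by positivity)
    rw [Filter.eventually_cofinite] at h1
    refine h1.subset fun p hp => ?_
    have h2 : nn (s p) ≤ X := hp
    show ¬ (nn (s p))⁻¹ < X⁻¹
    rw [not_lt]
    exact inv_anti₀ (nn_pos _) h2

theorem ss_sub {s : α → Finset (Pr K)} {I : Ideal (𝓞 K)} {X : ℝ} (hI : I ∈ Box K X) :
    SS s I ⊆ {p : α | nn (s p) ≤ X} := fun _ hx => nn_le_of_mem hx hI

theorem ss_finite {s : α → Finset (Pr K)} (hs : Summable fun p => (nn (s p))⁻¹) {I : Ideal (𝓞 K)}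
    (hI : I ≠ ⊥) : (SS s I).Finite := by
  have h1 : I ∈ Box K (Ideal.absNorm I : ℝ) := ⟨hI, le_rfl⟩
  exact (ss_fin hs _).subset (ss_sub h1)

/-- the ideals with a point outside a finite set -/
theorem ss_tail {s : α → Finset (Pr K)} (hs : Summable fun p => (nn (s p))⁻¹) (ε : ℝ) (hε : 0 < ε) :
    ∃ A : Finset α, ∀ X : ℝ, 1 ≤ X →
      (({I ∈ Box K X | ¬ SS s I ⊆ A}.ncard : ℕ) : ℝ) ≤ ε * (Box K X).ncard := by
  classical
  obtain ⟨C1, hC1, hb⟩ := box_count K
  obtain ⟨c, hc, hlow⟩ := box_low K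
  obtain ⟨A, hA⟩ := (summable_iff_vanishing_norm.1 hs) (ε * c / C1) (by positivity)
  refine ⟨A, fun X hX => ?_⟩
  have hX0 : 0 ≤ X := by linarith
  set B : Finset α := (ss_fin hs X).toFinset \ A with hB
  have hsub : {I ∈ Box K X | ¬ SS s I ⊆ A} ⊆ ⋃ p ∈ B, (Mult (s p) ∩ Box K X) := by
    rintro I ⟨hI, hn⟩
    rw [Set.not_subset] at hn
    obtain ⟨p, hp, hpA⟩ := hn
    refine Set.mem_iUnion₂.2 ⟨p, ?_, hp, hI⟩
    rw [hB, Finset.mem_sdiff, Set.Finite.mem_toFinset]
    exact ⟨ss_sub hI hp, hpA⟩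
  have hUf : (⋃ p ∈ B, (Mult (s p) ∩ Box K X)).Finite :=
    Set.Finite.biUnion B.finite_toSet fun x _ => (box_fin X).subset Set.inter_subset_right
  have h1 := Set.ncard_le_ncard hsub hUf
  have h2 : (⋃ p ∈ B, (Mult (s p) ∩ Box K X)).ncard ≤ ∑ p ∈ B, (Mult (s p) ∩ Box K X).ncard :=
    Finset.set_ncard_biUnion_le B _
  have h3 : ∑ p ∈ B, (nn (s p))⁻¹ ≤ ε * c / C1 := by
    have h4 := hA B (by rw [hB]; exact Finset.sdiff_disjoint)
    rw [Real.norm_of_nonneg (Finset.sum_nonneg fun p _ => (inv_pos.2 (nn_pos _)).le)] at h4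
    exact h4.le
  calc (({I ∈ Box K X | ¬ SS s I ⊆ A}.ncard : ℕ) : ℝ) ≤
      ∑ p ∈ B, ((Mult (s p) ∩ Box K X).ncard : ℝ) := by exact_mod_cast h1.trans h2
    _ ≤ ∑ p ∈ B, C1 * X * (nn (s p))⁻¹ := Finset.sum_le_sum fun p _ => mult_count hb _ hX0
    _ = C1 * X * ∑ p ∈ B, (nn (s p))⁻¹ := by rw [Finset.mul_sum]
    _ ≤ C1 * X * (ε * c / C1) := mul_le_mul_of_nonneg_left h3 (by positivity)
    _ = ε * (c * X) := by field_simp
    _ ≤ ε * (Box K X).ncard := mul_le_mul_of_nonneg_left (hlow X hX) hε.le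

open Classical in
/-- every property of the random set has a density -/
theorem ss_law {s : α → Finset (Pr K)} (hs : Summable fun p => (nn (s p))⁻¹) (P : Set (Set α)) :
    ∃ d, HasDens {I : Ideal (𝓞 K) | SS s I ∈ P} d := by
  refine dens_of_approx _ fun ε hε => ?_
  obtain ⟨A, hA⟩ := ss_tail hs ε hε
  set V : Finset (Pr K) := A.biUnion s with hV
  obtain ⟨d, hd⟩ := fin_dens V {W | {p : α | p ∈ A ∧ s p ⊆ W} ∈ P}
  refine ⟨_, d, hd, fun X hX => ?_⟩
  -- the two sets of ideals agree where all points are in `A`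
  have key : ∀ I : Ideal (𝓞 K), SS s I ⊆ A →
      {p : α | p ∈ A ∧ s p ⊆ V.filter fun v => v.asIdeal ∣ I} = SS s I := by
    intro I hI
    ext p
    constructor
    · rintro ⟨h1, h2⟩ v hv
      exact (Finset.mem_filter.1 (h2 hv)).2
    · intro hp
      have hpA := hI hp
      refine ⟨hpA, fun v hv => Finset.mem_filter.2 ⟨?_, hp v hv⟩⟩
      rw [hV, Finset.mem_biUnion]
      exact ⟨p, hpA, hv⟩
  set P' : Set (Ideal (𝓞 K)) := {I | SS s I ∈ P} with hP'
  set Q' : Set (Ideal (𝓞 K)) := {I : Ideal (𝓞 K) | (V.filter fun v => v.asIdeal ∣ I) ∈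
    {W | {p : α | p ∈ A ∧ s p ⊆ W} ∈ P}} with hQ'
  have hiff : ∀ I : Ideal (𝓞 K), SS s I ⊆ A → (I ∈ P' ↔ I ∈ Q') := by
    intro I hI
    have h1 := key I hI
    show SS s I ∈ P ↔ {p : α | p ∈ A ∧ s p ⊆ V.filter fun v => v.asIdeal ∣ I} ∈ P
    rw [h1]
  set E : Set (Ideal (𝓞 K)) := {I ∈ Box K X | ¬ SS s I ⊆ A} with hE
  have hEf : E.Finite := (box_fin X).subset fun I hI => hI.1
  have h1 : P' ∩ Box K X ⊆ (Q' ∩ Box K X) ∪ E := by
    rintro I ⟨h2, h3⟩
    by_cases h : SS s I ⊆ A
    · exact Or.inl ⟨(hiff I h).1 h2, h3⟩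
    · exact Or.inr ⟨h3, h⟩
  have h2 : Q' ∩ Box K X ⊆ (P' ∩ Box K X) ∪ E := by
    rintro I ⟨h2, h3⟩
    by_cases h : SS s I ⊆ A
    · exact Or.inl ⟨(hiff I h).2 h2, h3⟩
    · exact Or.inr ⟨h3, h⟩
  have hPf : (P' ∩ Box K X).Finite := (box_fin X).subset Set.inter_subset_right
  have hQf : (Q' ∩ Box K X).Finite := (box_fin X).subset Set.inter_subset_right
  have h3 : ((P' ∩ Box K X).ncard : ℝ) ≤ (Q' ∩ Box K X).ncard + E.ncard := by
    exact_mod_cast (Set.ncard_le_ncard h1 (hQf.union hEf)).trans (Set.ncard_union_le _ _)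
  have h4 : ((Q' ∩ Box K X).ncard : ℝ) ≤ (P' ∩ Box K X).ncard + E.ncard := by
    exact_mod_cast (Set.ncard_le_ncard h2 (hPf.union hEf)).trans (Set.ncard_union_le _ _)
  have h5 : (E.ncard : ℝ) ≤ ε * (Box K X).ncard := hA X hX
  rw [abs_le]
  constructor <;> linarith

open Classical in
/-- **the limit law**: the random set converges in total variation to a random finite set, whose mean
number of elements is the sum of the reciprocals -/
theorem ss_limit {s : α → Finset (Pr K)} (hs : Summable fun p => (nn (s p))⁻¹) :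
    ∃ μ : Finset α → ℝ, (∀ F, 0 ≤ μ F) ∧ HasSum μ 1 ∧
      (∀ P : Set (Finset α), HasDens {I : Ideal (𝓞 K) | ∃ F ∈ P, SS s I = (F : Set α)}
        (∑' F : P, μ F)) ∧
      HasSum (fun F : Finset α => (F.card : ℝ) * μ F) (∑' p, (nn (s p))⁻¹) := by
  choose d hd using fun P : Set (Set α) => ss_law hs P
  -- `ν P` is the probability of `P`
  set ν : Set (Finset α) → ℝ := fun P => d ((fun F : Finset α => (F : Set α)) '' P) with hν
  set μ : Finset α → ℝ := fun F => ν {F} with hμ
  have hνd : ∀ P : Set (Finset α), HasDens {I : Ideal (𝓞 K) | ∃ F ∈ P, SS s I = (F : Set α)} (ν P) := by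
    intro P
    refine (hd _).congr fun I _ => ?_
    constructor
    · rintro ⟨F, hF, h⟩
      exact ⟨F, hF, h.symm⟩
    · rintro ⟨F, hF, h⟩
      exact ⟨F, hF, h.symm⟩
  have hν0 : ∀ P, 0 ≤ ν P := fun P => (hνd P).nonneg
  have hsub : ∀ P Q : Set (Finset α), Q ⊆ P → ν (P \ Q) = ν P - ν Q := by
    intro P Q hQP
    have h1 := (hνd P).diff (hνd Q) (fun I hI => by
      obtain ⟨F, hF, h⟩ := hI
      exact ⟨F, hQP hF, h⟩)
    refine (hνd (P \ Q)).unique (h1.congr fun I _ => ?_)
    constructor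
    · rintro ⟨⟨F, hF, h⟩, h2⟩
      exact ⟨F, ⟨hF, fun hFQ => h2 ⟨F, hFQ, h⟩⟩, h⟩
    · rintro ⟨F, ⟨hF, hFQ⟩, h⟩
      refine ⟨⟨F, hF, h⟩, ?_⟩
      rintro ⟨G, hG, h2⟩
      have : F = G := Finset.coe_injective (h.symm.trans h2)
      exact hFQ (this ▸ hG)
  have hemp : ν ∅ = 0 := by
    have h1 := hsub ∅ ∅ (le_refl _)
    rw [Set.empty_sdiff, sub_self] at h1
    exact h1
  have hfin : ∀ G : Finset (Finset α), ν (G : Set (Finset α)) = ∑ F ∈ G, μ F := by
    intro G
    induction G using Finset.induction_on with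
    | empty => rw [Finset.coe_empty, hemp, Finset.sum_empty]
    | insert F G hF ih =>
      rw [Finset.sum_insert hF, ← ih]
      have h1 := hsub (insert F G : Finset (Finset α)) (G : Set (Finset α))
        (by rw [Finset.coe_insert]; exact Set.subset_insert _ _)
      have h2 : ((insert F G : Finset (Finset α)) : Set (Finset α)) \ (G : Set (Finset α)) = {F} := by
        ext H
        rw [Finset.coe_insert]
        constructor
        · rintro ⟨h3, h4⟩
          rcases h3 with h3 | h3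
          · exact h3
          · exact absurd h3 h4
        · intro h3
          rw [Set.mem_singleton_iff] at h3
          subst h3
          exact ⟨Or.inl rfl, hF⟩
      rw [h2] at h1
      have h3 : μ F = ν {F} := rfl
      rw [h3, h1]
      ring
  have huniv : ν Set.univ = 1 := by
    refine (hνd Set.univ).unique (hasDens_univ.congr fun I hI => ?_)
    refine ⟨fun _ => ⟨(ss_finite hs hI).toFinset, Set.mem_univ _, ?_⟩, fun _ => Set.mem_univ _⟩
    rw [Set.Finite.coe_toFinset]
  -- tightness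
  have htight : ∀ ε : ℝ, 0 < ε → ∃ G : Finset (Finset α),
      ∀ P : Set (Finset α), (∀ F ∈ P, F ∉ G) → ν P ≤ ε := by
    intro ε hε
    obtain ⟨A, hA⟩ := ss_tail hs ε hε
    refine ⟨A.powerset, fun P hP => ?_⟩
    refine le_of_tendsto (hνd P) ?_
    filter_upwards [eventually_ge_atTop 1] with X hX
    rw [div_le_iff₀ (box_pos hX)]
    refine le_trans ?_ (hA X hX)
    refine Nat.cast_le.2 (Set.ncard_le_ncard ?_ ((box_fin X).subset fun I hI => hI.1))
    rintro I ⟨⟨F, hF, h⟩, hI⟩
    refine ⟨hI, fun h2 => hP F hF ?_⟩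
    rw [Finset.mem_powerset]
    rw [h] at h2
    exact_mod_cast h2
  have hsum : ∀ P : Set (Finset α), HasSum (fun F : P => μ F) (ν P) := by
    intro P
    rw [show (fun F : P => μ F) = μ ∘ ((↑) : P → Finset α) from rfl,
      hasSum_subtype_iff_indicator]
    rw [HasSum, SummationFilter.unconditional_filter, Metric.tendsto_atTop]
    intro ε hε
    obtain ⟨G, hG⟩ := htight (ε / 2) (by linarith)
    refine ⟨G, fun H hH => ?_⟩
    have h1 : ∑ F ∈ H, P.indicator μ F = ν (P ∩ (H : Set (Finset α))) := by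
      have h2 : P ∩ (H : Set (Finset α)) = ((H.filter fun F => F ∈ P : Finset (Finset α)) :
          Set (Finset α)) := by
        ext F
        rw [Finset.mem_coe, Finset.mem_filter]
        exact ⟨fun h => ⟨h.2, h.1⟩, fun h => ⟨h.2, h.1⟩⟩
      rw [h2, hfin, Finset.sum_filter]
      refine Finset.sum_congr rfl fun F _ => ?_
      rw [Set.indicator_apply]
    have h3 := hsub P (P ∩ (H : Set (Finset α))) Set.inter_subset_left
    have h4 := hG (P \ (P ∩ (H : Set (Finset α)))) (fun F hF hFG =>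
      hF.2 ⟨hF.1, hH hFG⟩)
    have h5 := hν0 (P \ (P ∩ (H : Set (Finset α))))
    show dist (∑ F ∈ H, P.indicator μ F) (ν P) < ε
    rw [h1, Real.dist_eq, abs_sub_comm, ← h3, abs_of_nonneg h5]
    linarith
  have hsum1 : HasSum μ 1 := by
    have h1 := hsum Set.univ
    rw [huniv] at h1
    have h2 : HasSum (μ ∘ fun F : (Set.univ : Set (Finset α)) => (F : Finset α)) 1 := h1
    have h3 : HasSum ((Set.univ : Set (Finset α)).indicator μ) 1 :=
      hasSum_subtype_iff_indicator.1 h2
    rwa [Set.indicator_univ] at h3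
  refine ⟨μ, fun F => hν0 _, hsum1, fun P => ?_, ?_⟩
  · rw [(hsum P).tsum_eq]
    exact hνd P
  · -- the mean
    have hprob : ∀ p : α, HasSum (fun F : Finset α => if p ∈ F then μ F else 0) (nn (s p))⁻¹ := by
      intro p
      have h1 := hsum {F : Finset α | p ∈ F}
      rw [show (fun F : {F : Finset α | p ∈ F} => μ F) = μ ∘ ((↑) : {F : Finset α | p ∈ F} →
        Finset α) from rfl, hasSum_subtype_iff_indicator] at h1
      have h2 : ν {F : Finset α | p ∈ F} = (nn (s p))⁻¹ := by
        refine (hνd _).unique ((mult_dens (s p)).congr fun I hI => ?_)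
        constructor
        · intro h
          refine ⟨(ss_finite hs hI).toFinset, ?_, ?_⟩
          · show p ∈ (ss_finite hs hI).toFinset
            rw [Set.Finite.mem_toFinset]
            exact h
          · rw [Set.Finite.coe_toFinset]
        · rintro ⟨F, hF, h⟩
          have h3 : p ∈ SS s I := by
            rw [h]
            exact hF
          exact h3
      rw [h2] at h1
      refine h1.congr_fun ?_
      intro F
      rw [Set.indicator_apply]
      rfl
    have hnn : ∀ q : α × Finset α, 0 ≤ (if q.1 ∈ q.2 then μ q.2 else 0 : ℝ) := by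
      intro q
      split_ifs
      · exact hν0 _
      · exact le_rfl
    have hprod : Summable (fun q : α × Finset α => (if q.1 ∈ q.2 then μ q.2 else 0 : ℝ)) := by
      rw [summable_prod_of_nonneg hnn]
      refine ⟨fun p => (hprob p).summable, ?_⟩
      refine hs.congr fun p => ?_
      exact (hprob p).tsum_eq.symm
    have h1 : HasSum (fun q : α × Finset α => (if q.1 ∈ q.2 then μ q.2 else 0 : ℝ))
        (∑' p, (nn (s p))⁻¹) := by
      have h2 := hprod.hasSum
      rwa [hprod.tsum_prod' (fun p => (hprob p).summable),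
        tsum_congr (fun p => (hprob p).tsum_eq)] at h2
    have h3 : HasSum (fun q : Finset α × α => (if q.2 ∈ q.1 then μ q.1 else 0 : ℝ))
        (∑' p, (nn (s p))⁻¹) := by
      have h4 := (Equiv.prodComm (Finset α) α).hasSum_iff.2 h1
      exact h4
    have h5 := h3.prod_fiberwise (g := fun F : Finset α => (F.card : ℝ) * μ F) (fun F => by
      have h6 : HasSum (fun p : α => (if p ∈ F then μ F else 0 : ℝ))
          (∑ p ∈ F, (if p ∈ F then μ F else 0 : ℝ)) :=
        hasSum_sum_of_ne_finset_zero fun p hp => if_neg hp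
      have h7 : ∑ p ∈ F, (if p ∈ F then μ F else 0 : ℝ) = (F.card : ℝ) * μ F := by
        rw [Finset.sum_congr rfl fun p hp => if_pos hp, Finset.sum_const, nsmul_eq_mul]
      rw [h7] at h6
      exact h6)
    exact h5

open Classical in
/-- **the mean number of points** -/
theorem ss_mean {s : α → Finset (Pr K)} (hs : Summable fun p => (nn (s p))⁻¹) :
    Tendsto (fun X : ℝ => (∑ I ∈ (box_fin (K := K) X).toFinset, ((SS s I).ncard : ℝ)) /
      (Box K X).ncard) atTop (𝓝 (∑' p, (nn (s p))⁻¹)) := by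
  obtain ⟨C1, hC1, hbc⟩ := box_count K
  obtain ⟨ρ, hρ, hb⟩ := box_tendsto K
  have hterm : ∀ X : ℝ, 1 ≤ X → (∑ I ∈ (box_fin (K := K) X).toFinset, ((SS s I).ncard : ℝ)) /
      (Box K X).ncard = ∑' p : α, ((Mult (s p) ∩ Box K X).ncard : ℝ) / (Box K X).ncard := by
    intro X hX
    have hfin := ss_fin hs X
    have hz : ∀ p : α, p ∉ hfin.toFinset →
        ((Mult (s p) ∩ Box K X).ncard : ℝ) / (Box K X).ncard = 0 := by
      intro p hp
      rw [Set.Finite.mem_toFinset] at hp
      have h1 : Mult (s p) ∩ Box K X = ∅ := by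
        rw [Set.eq_empty_iff_forall_notMem]
        rintro I ⟨h1, h2⟩
        exact hp (nn_le_of_mem h1 h2)
      rw [h1, Set.ncard_empty, Nat.cast_zero, zero_div]
    rw [tsum_eq_sum (s := hfin.toFinset) hz, ← Finset.sum_div]
    congr 1
    have hcard : ∀ I ∈ (box_fin (K := K) X).toFinset, ((SS s I).ncard : ℝ) =
        ∑ p ∈ hfin.toFinset, if I ∈ Mult (s p) then (1 : ℝ) else 0 := by
      intro I hI
      rw [Set.Finite.mem_toFinset] at hI
      have h1 : SS s I = ((hfin.toFinset.filter fun p => I ∈ Mult (s p) : Finset α) : Set α) := by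
        ext p
        rw [Finset.mem_coe, Finset.mem_filter, Set.Finite.mem_toFinset]
        exact ⟨fun hx => ⟨ss_sub hI hx, hx⟩, fun hx => hx.2⟩
      rw [h1, Set.ncard_coe_finset, Finset.card_filter]
      push_cast
      rfl
    rw [Finset.sum_congr rfl hcard, Finset.sum_comm]
    refine Finset.sum_congr rfl fun p _ => ?_
    have h2 : Mult (s p) ∩ Box K X =
        (((box_fin (K := K) X).toFinset.filter fun I => I ∈ Mult (s p) : Finset _) :
          Set (Ideal (𝓞 K))) := by
      ext I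
      rw [Finset.mem_coe, Finset.mem_filter, Set.Finite.mem_toFinset]
      exact ⟨fun h => ⟨h.2, h.1⟩, fun h => ⟨h.2, h.1⟩⟩
    rw [h2, Set.ncard_coe_finset, Finset.card_filter]
    push_cast
    rfl
  have hdom : Summable (fun p : α => (2 * C1 / ρ) * (nn (s p))⁻¹) := hs.mul_left _
  have h1 := tendsto_tsum_of_dominated_convergence
    (f := fun (X : ℝ) (p : α) => ((Mult (s p) ∩ Box K X).ncard : ℝ) / (Box K X).ncard)
    (𝓕 := atTop) hdom (fun p => mult_dens (s p)) (by
      filter_upwards [eventually_ge_atTop 1, hb.eventually_const_lt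
        (show ρ / 2 < ρ by linarith)] with X hX hX2 p
      have hX0 : 0 < X := by linarith
      have hbp := box_pos (K := K) hX
      have h2 := mult_count hbc (s p) hX0.le
      rw [lt_div_iff₀ hX0] at hX2
      have hp := nn_pos (s p)
      rw [Real.norm_of_nonneg (by positivity), div_le_iff₀ hbp]
      refine h2.trans ?_
      have h3 : 2 * C1 / ρ * (nn (s p))⁻¹ * (ρ / 2 * X) = C1 * X * (nn (s p))⁻¹ := by
        field_simp
      rw [← h3]
      exact mul_le_mul_of_nonneg_left hX2.le (by positivity))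
  refine h1.congr' ?_
  filter_upwards [eventually_ge_atTop 1] with X hX
  exact (hterm X hX).symm

end Pool.Agent.K3h24.SB
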