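import Mathlib
import Pool.Agent.K3h24.SB.Law

/-!
# The unit equation with coefficients outside random ideals
-/

set_option autoImplicit false
set_option linter.unusedSectionVars false

namespace Pool.Agent.K3h24.SB

open NumberField IsDedekindDomain Finset Filter Topology
open Pool.Agent.H691R3 (fv Nv fv_support_finite)
open Pool.Agent.TH876.Loc

variable {K : Type} [Field K] [NumberField K]

/-- the point with parameter `z` -/
def ψ (α β z : K) : K × K := (z / α, (1 - z) / β)

theorem ψ_inj {α β : K} (hα : α ≠ 0) : Function.Injective (ψ α β) := by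
  intro z w h
  have h1 : z / α = w / α := congrArg Prod.fst h
  exact (div_left_inj' hα).1 h1

/-- the primes at which one of the two numbers is not a unit -/
def NU (p : K × K) : Set (Pr K) := {v | ¬ (v.valuation K p.1 = 1 ∧ v.valuation K p.2 = 1)}

theorem NU_fin {p : K × K} (h1 : p.1 ≠ 0) (h2 : p.2 ≠ 0) : (NU p).Finite := by
  refine ((fv_support_finite h1).union (fv_support_finite h2)).subset ?_
  intro v hv
  have hv' : ¬ (v.valuation K p.1 = 1 ∧ v.valuation K p.2 = 1) := hv
  rw [← Pool.Agent.Y729.FW.fv_eq_one_iff, ← Pool.Agent.Y729.FW.fv_eq_one_iff] at hv'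
  by_contra hc
  rw [Set.mem_union, not_or] at hc
  exact hv' ⟨not_not.1 fun h => hc.1 h, not_not.1 fun h => hc.2 h⟩

open Classical in
/-- the set of primes of the point with parameter `z` -/
noncomputable def sab (α β : K) (z : K) : Finset (Pr K) :=
  if h : (NU (ψ α β z)).Finite then h.toFinset else ∅

theorem sab_fin {α β : K} (hα : α ≠ 0) (hβ : β ≠ 0) {z : K} (hz : Pt (-z)) :
    (NU (ψ α β z)).Finite := by
  obtain ⟨h0, h1⟩ := of_pt_neg hz
  exact NU_fin (div_ne_zero h0 hα) (div_ne_zero (sub_ne_zero.2 h1.symm) hβ)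

theorem mem_sab {α β : K} (hα : α ≠ 0) (hβ : β ≠ 0) {z : K} (hz : Pt (-z)) (v : Pr K) :
    v ∈ sab α β z ↔ v ∈ NU (ψ α β z) := by
  unfold sab
  rw [dif_pos (sab_fin hα hβ hz), Set.Finite.mem_toFinset]

theorem coe_sab {α β : K} (hα : α ≠ 0) (hβ : β ≠ 0) {z : K} (hz : Pt (-z)) :
    (sab α β z : Set (Pr K)) = NU (ψ α β z) := by
  ext v
  rw [Finset.mem_coe, mem_sab hα hβ hz]

theorem adm_sab {α β : K} (hα : α ≠ 0) (hβ : β ≠ 0) : Adm (sab α β) := by
  classical
  refine ⟨(NU_fin (p := (α, β)) hα hβ).toFinset, fun z hz v hv hv2 => ?_⟩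
  rw [Set.Finite.mem_toFinset] at hv2
  have h1 : v.valuation K α = 1 ∧ v.valuation K β = 1 := not_not.1 hv2
  rw [mem_rad hz] at hv
  rw [mem_sab hα hβ hz]
  intro h2
  apply hv
  obtain ⟨h3, h4⟩ := h2
  have h3' : v.valuation K (z / α) = 1 := h3
  have h4' : v.valuation K ((1 - z) / β) = 1 := h4
  rw [map_div₀, h1.1, div_one] at h3'
  rw [map_div₀, h1.2, div_one] at h4'
  exact ⟨h3', h4'⟩

end Pool.Agent.K3h24.SB
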