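import Mathlib
import Pool.Agent.Y728.HY.Ext
import Pool.Agent.K3h24.SB.Ideals

/-!
# Hyperelliptic curves with rational Weierstrass points for most sets of bad primes
-/

set_option autoImplicit false
set_option linter.unusedSectionVars false

namespace Pool.Agent.K3h24.SB

open NumberField IsDedekindDomain Finset Polynomial Height
open Pool.Agent.H691R3 (fv Nv)
open Pool.Agent.TH876.Loc
open Pool.Agent.W318 (minExp discNorm badNorm)
open Pool.Agent.TH905.HS (pol equal_of_good)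
open Pool.Agent.Y728.HY (cfg cfg_inj log_disc_up badNorm_pos discNorm_pos)

variable {K : Type} [Field K] [NumberField K]

/-- the curve `y² = d x (x - 1) (x - l_1) … (x - l_m)` has genus `g ≥ 2` and good reduction at all
primes which do not divide `I` -/
structure Mem (I : Ideal (𝓞 K)) (g m : ℕ) (l : Fin m → K) (d : K) : Prop where
  two_le : 2 ≤ g
  hm : m + 1 = 2 * g
  inj : Function.Injective l
  ne : ∀ i, l i ≠ 0 ∧ l i ≠ 1
  d_ne : d ≠ 0
  good : ∀ v : Pr K, ¬ v.asIdeal ∣ I → minExp g (pol d (cfg l)) v = 0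

/-- the parameters of the curves are units outside `2 I`, and so is their difference to one -/
theorem Mem.unit {I : Ideal (𝓞 K)} {g m : ℕ} {l : Fin m → K} {d : K} (h : Mem I g m l d)
    (i : Fin m) (v : Pr K) (hv : ¬ v.asIdeal ∣ I) (h2 : fv v (2 : K) = 1) :
    fv v (l i) = 1 ∧ fv v (1 - l i) = 1 := by
  have hn : m + 2 = 2 * g + 1 := by have := h.hm; omega
  have he := cfg_inj h.ne h.inj
  have h2' : v.valuation K (2 : K) = 1 := (Pool.Agent.Y729.FW.fv_eq_one_iff v _).1 h2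
  have key := equal_of_good h.two_le hn h.d_ne he v h2' (h.good v hv)
  have e0 : cfg l 0 = 0 := by simp [cfg]
  have e1 : cfg l (Fin.succ 0) = 1 := by simp [cfg]
  have ei : cfg l i.succ.succ = l i := by simp [cfg]
  have h10 : (Fin.succ 0 : Fin (m + 2)) ≠ 0 := Fin.succ_ne_zero _
  have hi0 : (i.succ.succ : Fin (m + 2)) ≠ 0 := Fin.succ_ne_zero _
  have hi1 : (Fin.succ 0 : Fin (m + 2)) ≠ i.succ.succ := fun h' =>
    Fin.succ_ne_zero i (Fin.succ_injective _ h').symm
  have k1 := key i.succ.succ 0 (Fin.succ 0) 0 hi0 h10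
  have k2 := key (Fin.succ 0) i.succ.succ (Fin.succ 0) 0 hi1 h10
  rw [ei, e0, e1, sub_zero, sub_zero, map_one] at k1
  rw [ei, e0, e1, sub_zero, map_one] at k2
  exact ⟨(Pool.Agent.Y729.FW.fv_eq_one_iff v _).2 k1, (Pool.Agent.Y729.FW.fv_eq_one_iff v _).2 k2⟩

/-- the primes above two -/
noncomputable def T2 (K : Type) [Field K] [NumberField K] : Finset (Pr K) :=
  (Pool.Agent.H691R3.fv_support_finite (K := K) (two_ne_zero)).toFinset

theorem mem_T2 (v : Pr K) : v ∈ T2 K ↔ fv v (2 : K) ≠ 1 := by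
  unfold T2
  rw [Set.Finite.mem_toFinset]
  rfl

open Classical in
/-- the primes prime to two at which `x` or `1 - x` is not a unit -/
noncomputable def s2 (x : K) : Finset (Pr K) := sp (-x) \ T2 K

theorem adm_s2 : Adm (s2 : K → Finset (Pr K)) := by
  classical
  exact ⟨T2 K, fun x _ v hv hv2 => Finset.mem_sdiff.2 ⟨hv, hv2⟩⟩

theorem Mem.sol {I : Ideal (𝓞 K)} {g m : ℕ} {l : Fin m → K} {d : K} (h : Mem I g m l d)
    (i : Fin m) : l i ∈ Sol s2 I := by
  classical
  have hp := pt_neg (h.ne i).1 (h.ne i).2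
  refine ⟨hp, fun v hv => ?_⟩
  rw [s2, Finset.mem_sdiff, mem_rad hp, mem_T2, not_not] at hv
  by_contra hc
  obtain ⟨k1, k2⟩ := h.unit i v hc hv.2
  exact hv.1 ⟨(Pool.Agent.Y729.FW.fv_eq_one_iff v _).1 k1,
    (Pool.Agent.Y729.FW.fv_eq_one_iff v _).1 k2⟩

theorem sum_cfg_le {m : ℕ} {l : Fin m → K} {F : Finset K} (hl : ∀ i, l i ∈ F) :
    ∑ i, logHeight₁ (cfg l i) ≤ m * ∑ x ∈ F, logHeight₁ x := by
  rw [Pool.Agent.Y728.HY.sum_cfg]
  have h1 : ∀ i ∈ (univ : Finset (Fin m)), logHeight₁ (l i) ≤ ∑ x ∈ F, logHeight₁ x :=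
    fun i _ => Finset.single_le_sum (f := fun x => logHeight₁ x)
      (fun x _ => Height.zero_le_logHeight₁ x) (hl i)
  refine (Finset.sum_le_sum h1).trans ?_
  rw [Finset.sum_const, nsmul_eq_mul, Finset.card_univ, Fintype.card_fin]

/-- the discriminants of the curves with parameters in a finite set -/
theorem szpiro_fin (F : Finset K) : ∃ c : ℝ, 0 < c ∧ ∀ (I : Ideal (𝓞 K)) (g m : ℕ)
    (l : Fin m → K) (d : K), Mem I g m l d → (∀ i, l i ∈ F) →
      (discNorm g (pol d (cfg l)) : ℝ) ≤ c * (badNorm g (pol d (cfg l)) : ℝ) ^ (4 * g + 2) := by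
  classical
  have hc : ∀ g : ℕ, ∃ c₁ : ℝ, 1 ≤ g → ∀ (e : Fin (2 * g + 1) → K), Function.Injective e →
      ∀ d : K, d ≠ 0 → Real.log (discNorm g (pol d e)) ≤
        2 * (2 * g + 1 : ℕ) * Real.log (badNorm g (pol d e)) +
        2 * (2 * g + 1 : ℕ) * ∑ i, logHeight₁ (e i) + c₁ := by
    intro g
    by_cases hg : 1 ≤ g
    · obtain ⟨c₁, h⟩ := log_disc_up K (m := 2 * g + 1) (g := g) rfl hg
      exact ⟨c₁, fun _ => h⟩
    · exact ⟨0, fun h => absurd h hg⟩
  choose c₁ hc₁ using hc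
  set G := F.card + 1 with hG
  set H := ∑ x ∈ F, logHeight₁ x with hH
  have hH0 : 0 ≤ H := Finset.sum_nonneg fun x _ => Height.zero_le_logHeight₁ x
  refine ⟨Real.exp (∑ g ∈ range (G + 1), |c₁ g| + 2 * (2 * G + 1) * (G * H)),
    Real.exp_pos _, fun I g m l d h hl => ?_⟩
  have hg := h.two_le
  have hm := h.hm
  have hn : m + 2 = 2 * g + 1 := by omega
  have hmF : m ≤ F.card := by
    have h1 : (univ.image l).card ≤ F.card := Finset.card_le_card fun x hx => by
      obtain ⟨i, _, rfl⟩ := Finset.mem_image.1 hx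
      exact hl i
    rwa [Finset.card_image_of_injective _ h.inj, Finset.card_univ, Fintype.card_fin] at h1
  have hgG : g ≤ G := by omega
  have hmG : m ≤ G := by omega
  have he := cfg_inj h.ne h.inj
  have hM := badNorm_pos hn h.d_ne he
  have hD := discNorm_pos hn h.d_ne he
  have hmain : Real.log (discNorm g (pol d (cfg l))) ≤
      2 * ((m + 2 : ℕ) : ℝ) * Real.log (badNorm g (pol d (cfg l))) +
        2 * ((m + 2 : ℕ) : ℝ) * ∑ i, logHeight₁ (cfg l i) + c₁ g := by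
    have hk : ∀ (k : ℕ) (hk : k = 2 * g + 1) (e : Fin k → K), Function.Injective e →
        Real.log (discNorm g (pol d e)) ≤ 2 * (k : ℝ) * Real.log (badNorm g (pol d e)) +
          2 * (k : ℝ) * ∑ i, logHeight₁ (e i) + c₁ g := by
      rintro k rfl e he'
      exact hc₁ g (by omega) e he' d h.d_ne
    exact hk (m + 2) hn (cfg l) he
  have h1 := sum_cfg_le hl
  rw [← hH] at h1
  have h2 : c₁ g ≤ ∑ g ∈ range (G + 1), |c₁ g| :=
    (le_abs_self _).trans (Finset.single_le_sum (f := fun g => |c₁ g|)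
      (fun _ _ => abs_nonneg _) (Finset.mem_range.2 (by omega)))
  have h3 : 2 * ((m + 2 : ℕ) : ℝ) * ∑ i, logHeight₁ (cfg l i) ≤ 2 * (2 * G + 1) * (G * H) := by
    have e1 : ((m + 2 : ℕ) : ℝ) ≤ 2 * G + 1 := by
      have : m + 2 ≤ 2 * G + 1 := by omega
      exact_mod_cast this
    have e2 : (m : ℝ) ≤ G := by exact_mod_cast hmG
    have e3 : (m : ℝ) * H ≤ G * H := mul_le_mul_of_nonneg_right e2 hH0
    have e4 : 0 ≤ ∑ i, logHeight₁ (cfg l i) :=
      Finset.sum_nonneg fun i _ => Height.zero_le_logHeight₁ _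
    have e5 : (0 : ℝ) ≤ ((m + 2 : ℕ) : ℝ) := Nat.cast_nonneg _
    calc 2 * ((m + 2 : ℕ) : ℝ) * ∑ i, logHeight₁ (cfg l i) ≤
        2 * (2 * G + 1) * ∑ i, logHeight₁ (cfg l i) :=
          mul_le_mul_of_nonneg_right (by linarith) e4
      _ ≤ 2 * (2 * G + 1) * (G * H) := by
          refine mul_le_mul_of_nonneg_left (h1.trans e3) (by positivity)
  have e6 : (2 * ((m + 2 : ℕ) : ℝ)) = ((4 * g + 2 : ℕ) : ℝ) := by
    rw [hn]; push_cast; ring
  have h4 : Real.log (discNorm g (pol d (cfg l))) ≤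
      (∑ g ∈ range (G + 1), |c₁ g| + 2 * (2 * G + 1) * (G * H)) +
        ((4 * g + 2 : ℕ) : ℝ) * Real.log (badNorm g (pol d (cfg l))) := by
    rw [← e6]
    linarith
  have h5 : (0 : ℝ) < discNorm g (pol d (cfg l)) := by exact_mod_cast hD
  have h6 : (0 : ℝ) < badNorm g (pol d (cfg l)) := by exact_mod_cast hM
  rw [← Real.exp_log h5, ← Real.exp_log h6, ← Real.exp_nat_mul, ← Real.exp_add]
  exact Real.exp_le_exp.2 h4

end Pool.Agent.K3h24.SB
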