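import Mathlib
import Pool.Agent.K3h24.SB.Main
import Pool.Agent.K3h24.SB.Law
import Pool.Agent.Y729.FW.Cond
import Pool.Agent.Y729.FW.Ht

/-!
# Elliptic curves with potentially good reduction outside an ideal
-/

set_option autoImplicit false
set_option linter.unusedSectionVars false

namespace Pool.Agent.K3h24.SB

open NumberField IsDedekindDomain Finset
open Pool.Agent.TH876.Loc
open Pool.Agent.TH876.FH (faltings IsPeriod arch jInv FullTwo GoodAt)

section val

variable {F : Type} [Field F] {Γ : Type} [LinearOrderedCommGroupWithZero Γ] (v : Valuation F Γ)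

theorem val_nat (n : ℕ) : v (n : F) ≤ 1 := by
  induction n with
  | zero => simp
  | succ n ih =>
    push_cast
    exact (v.map_add _ _).trans (max_le ih (map_one v).le)

theorem val_c4 (E : WeierstrassCurve F) (h1 : v E.a₁ ≤ 1) (h2 : v E.a₂ ≤ 1) (h3 : v E.a₃ ≤ 1)
    (h4 : v E.a₄ ≤ 1) : v E.c₄ ≤ 1 := by
  have i4 : v (4 : F) ≤ 1 := by exact_mod_cast val_nat v 4
  have i2 : v (2 : F) ≤ 1 := by exact_mod_cast val_nat v 2
  have i24 : v (24 : F) ≤ 1 := by exact_mod_cast val_nat v 24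
  have hb2 : v E.b₂ ≤ 1 := by
    rw [WeierstrassCurve.b₂]
    refine (v.map_add _ _).trans (max_le ?_ ?_)
    · rw [map_pow]
      exact pow_le_one' h1 2
    · rw [map_mul]
      exact mul_le_one' i4 h2
  have hb4 : v E.b₄ ≤ 1 := by
    rw [WeierstrassCurve.b₄]
    refine (v.map_add _ _).trans (max_le ?_ ?_)
    · rw [map_mul]
      exact mul_le_one' i2 h4
    · rw [map_mul]
      exact mul_le_one' h1 h3
  rw [WeierstrassCurve.c₄]
  refine (v.map_sub _ _).trans (max_le ?_ ?_)
  · rw [map_pow]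
    exact pow_le_one' hb2 2
  · rw [map_mul]
    exact mul_le_one' i24 hb4

/-- the Legendre parameter of an integral modular invariant -/
theorem leg_unit (h2 : v (2 : F) = 1) {j l : F} (hl : l ≠ 0) (hl1 : l ≠ 1)
    (hj : j * (l ^ 2 * (1 - l) ^ 2) = 256 * (l ^ 2 - l + 1) ^ 3) (hj1 : v j ≤ 1) :
    v l = 1 ∧ v (1 - l) = 1 := by
  have h256 : v (256 : F) = 1 := by
    have : (256 : F) = 2 ^ 8 := by norm_num
    rw [this, map_pow, h2, one_pow]
  have hv := congrArg v hj
  rw [map_mul, map_mul, map_mul, map_pow, map_pow, map_pow, h256, one_mul] at hv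
  have h0 : v l ≠ 0 := (map_ne_zero v).2 hl
  rcases lt_trichotomy (v l) 1 with h | h | h
  · exfalso
    have e1 : v (1 - l) = 1 := by
      rw [Valuation.map_sub_eq_of_lt_left]
      · exact map_one v
      · rw [map_one]
        exact h
    have e2 : v (l ^ 2 - l + 1) = 1 := by
      rw [Valuation.map_add_eq_of_lt_right]
      · exact map_one v
      · rw [map_one]
        refine lt_of_le_of_lt (v.map_sub _ _) (max_lt ?_ h)
        rw [map_pow]
        exact pow_lt_one' h two_ne_zero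
    rw [e1, e2, one_pow, one_pow, mul_one] at hv
    have h3 : v j * v l ^ 2 ≤ v l ^ 2 := mul_le_of_le_one_left' hj1
    have h4 : v l ^ 2 < 1 := pow_lt_one' h two_ne_zero
    rw [hv] at h3
    exact absurd (lt_of_le_of_lt h3 h4) (lt_irrefl _)
  · refine ⟨h, ?_⟩
    have h1 : v (1 - l) ≤ 1 := (v.map_sub _ _).trans (max_le (map_one v).le h.le)
    rcases lt_or_eq_of_le h1 with h3 | h3
    · exfalso
      have e2 : v (l ^ 2 - l + 1) = 1 := by
        have : l ^ 2 - l + 1 = -(l * (1 - l)) + 1 := by ring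
        rw [this, Valuation.map_add_eq_of_lt_right]
        · exact map_one v
        · rw [map_one, Valuation.map_neg, map_mul, h, one_mul]
          exact h3
      rw [e2, h, one_pow, one_pow, one_mul] at hv
      have h4 : v j * v (1 - l) ^ 2 ≤ v (1 - l) ^ 2 := mul_le_of_le_one_left' hj1
      have h5 : v (1 - l) ^ 2 < 1 := pow_lt_one' h3 two_ne_zero
      rw [hv] at h4
      exact absurd (lt_of_le_of_lt h4 h5) (lt_irrefl _)
    · exact h3
  · exfalso
    have e1 : v (1 - l) = v l := by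
      rw [Valuation.map_sub_eq_of_lt_right]
      rw [map_one]
      exact h
    have hll : v l < v l ^ 2 := by
      rw [sq]
      exact lt_mul_of_one_lt_left (zero_lt_iff.2 h0) h
    have e2 : v (l ^ 2 - l + 1) = v l ^ 2 := by
      rw [Valuation.map_add_eq_of_lt_left, Valuation.map_sub_eq_of_lt_left, map_pow]
      · rw [map_pow]
        exact hll
      · rw [Valuation.map_sub_eq_of_lt_left, map_pow, map_one]
        · exact h.trans hll
        · rw [map_pow]
          exact hll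
    rw [e1, e2] at hv
    have h3 : v j * (v l ^ 2 * v l ^ 2) ≤ v l ^ 2 * v l ^ 2 := mul_le_of_le_one_left' hj1
    have h4 : v l ^ 2 * v l ^ 2 < (v l ^ 2) ^ 3 := by
      have e5 : (v l ^ 2) ^ 3 = v l ^ 2 * (v l ^ 2 * v l ^ 2) := by
        rw [pow_succ, sq (v l ^ 2), mul_comm]
      rw [e5]
      refine lt_mul_of_one_lt_left ?_ (h.trans hll)
      exact zero_lt_iff.2 (mul_ne_zero (pow_ne_zero _ h0) (pow_ne_zero _ h0))
    rw [hv] at h3
    exact absurd (lt_of_le_of_lt h3 h4) (lt_irrefl _)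

end val

theorem good_j {M : Type} [Field M] [NumberField M] (v : Pr M) (E : WeierstrassCurve M)
    (h : GoodAt v E) : v.valuation M (E.c₄ ^ 3 / E.Δ) ≤ 1 := by
  obtain ⟨C, h1, h2, h3, h4, h6, hD⟩ := h
  have e : E.c₄ ^ 3 / E.Δ = (C • E).c₄ ^ 3 / (C • E).Δ := by
    rw [WeierstrassCurve.variableChange_c₄, WeierstrassCurve.variableChange_Δ]
    have hu : ((C.u⁻¹ : Mˣ) : M) ≠ 0 := Units.ne_zero _
    rw [mul_pow, ← pow_mul, show 4 * 3 = 12 from rfl,
      mul_div_mul_left _ _ (pow_ne_zero 12 hu)]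
  rw [e, map_div₀, hD, div_one, map_pow]
  exact pow_le_one' (val_c4 _ _ h1 h2 h3 h4) 3

section ext

variable {K : Type} [Field K] [NumberField K] {M : Type} [Field M] [NumberField M] [Algebra K M]

theorem exists_over (p : Pr K) :
    ∃ v : Pr M, v.asIdeal.comap (algebraMap (𝓞 K) (𝓞 M)) = p.asIdeal := by
  obtain ⟨Q, hQ, hQ2⟩ := Ideal.exists_ideal_over_maximal_of_isIntegral (S := 𝓞 M) p.asIdeal
    (by
      rw [(RingHom.injective_iff_ker_eq_bot _).1 (FaithfulSMul.algebraMap_injective (𝓞 K) (𝓞 M))]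
      exact bot_le)
  refine ⟨⟨Q, hQ.isPrime, ?_⟩, hQ2⟩
  rintro rfl
  apply p.ne_bot
  rw [← hQ2, Ideal.comap_bot_of_injective]
  exact FaithfulSMul.algebraMap_injective (𝓞 K) (𝓞 M)

theorem mem_over {p : Pr K} {v : Pr M}
    (h : v.asIdeal.comap (algebraMap (𝓞 K) (𝓞 M)) = p.asIdeal) (x : 𝓞 K) :
    algebraMap (𝓞 K) (𝓞 M) x ∈ v.asIdeal ↔ x ∈ p.asIdeal := by
  rw [← h]
  exact Iff.rfl

theorem val_over_lt {p : Pr K} {v : Pr M}
    (h : v.asIdeal.comap (algebraMap (𝓞 K) (𝓞 M)) = p.asIdeal) {x : K}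
    (hx : p.valuation K x < 1) : v.valuation M (algebraMap K M x) < 1 := by
  obtain ⟨n, d, hd⟩ := p.exists_primeCompl_mul_eq_of_integer x hx.le
  have hdp : (d : 𝓞 K) ∉ p.asIdeal := d.2
  have h1 : p.valuation K (algebraMap (𝓞 K) K d) = 1 :=
    (HeightOneSpectrum.valuation_eq_one_iff_notMem p).2 hdp
  have h2 : p.valuation K (algebraMap (𝓞 K) K n) < 1 := by
    rw [← hd, map_mul, h1, mul_one]
    exact hx
  have h3 : n ∈ p.asIdeal := (p.valuation_lt_one_iff_mem n).1 h2
  have e : ∀ y : 𝓞 K, algebraMap K M (algebraMap (𝓞 K) K y) =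
      algebraMap (𝓞 M) M (algebraMap (𝓞 K) (𝓞 M) y) := fun y => by
    rw [← IsScalarTower.algebraMap_apply, ← IsScalarTower.algebraMap_apply]
  have h4 : v.valuation M (algebraMap K M (algebraMap (𝓞 K) K n)) < 1 := by
    rw [e]
    exact (v.valuation_lt_one_iff_mem _).2 ((mem_over h n).2 h3)
  have h5 : v.valuation M (algebraMap K M (algebraMap (𝓞 K) K d)) = 1 := by
    rw [e]
    exact (HeightOneSpectrum.valuation_eq_one_iff_notMem v).2 fun hc => hdp ((mem_over h _).1 hc)
  rw [← hd, map_mul, map_mul, h5, mul_one] at h4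
  exact h4

theorem val_over_one {p : Pr K} {v : Pr M}
    (h : v.asIdeal.comap (algebraMap (𝓞 K) (𝓞 M)) = p.asIdeal) {x : K}
    (hx : v.valuation M (algebraMap K M x) = 1) : p.valuation K x = 1 := by
  rcases lt_trichotomy (p.valuation K x) 1 with h1 | h1 | h1
  · exact absurd hx (val_over_lt h h1).ne
  · exact h1
  · exfalso
    have h2 : p.valuation K x⁻¹ < 1 := by
      rw [map_inv₀]
      exact inv_lt_one_of_one_lt₀ h1
    have h3 := val_over_lt h h2
    rw [map_inv₀, map_inv₀, hx, inv_one] at h3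
    exact absurd h3 (lt_irrefl _)

theorem val_over_two {p : Pr K} {v : Pr M}
    (h : v.asIdeal.comap (algebraMap (𝓞 K) (𝓞 M)) = p.asIdeal) (h2 : p.valuation K 2 = 1) :
    v.valuation M 2 = 1 := by
  have e : (2 : K) = algebraMap (𝓞 K) K 2 := by
    rw [map_ofNat]
  have e' : (2 : M) = algebraMap (𝓞 M) M (algebraMap (𝓞 K) (𝓞 M) 2) := by
    rw [map_ofNat, map_ofNat]
  rw [e, HeightOneSpectrum.valuation_eq_one_iff_notMem] at h2
  rw [e', HeightOneSpectrum.valuation_eq_one_iff_notMem]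
  exact fun hc => h2 ((mem_over h 2).1 hc)

/-- the parameter of the modular invariant of an elliptic curve, over an extension `M` of `K`, which
has good reduction outside `I` -/
theorem par_over (I : Ideal (𝓞 K)) (E : WeierstrassCurve M) {l j : K} (hl : l ≠ 0) (hl1 : l ≠ 1)
    (hj : j * (l ^ 2 * (1 - l) ^ 2) = 256 * (l ^ 2 - l + 1) ^ 3)
    (hE : E.c₄ ^ 3 / E.Δ = algebraMap K M j)
    (hgood : ∀ v : Pr M, ¬ I ≤ v.asIdeal.comap (algebraMap (𝓞 K) (𝓞 M)) → GoodAt v E) :
    l ∈ Sol s2 I := by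
  classical
  have hp := pt_neg hl hl1
  refine ⟨hp, fun p hps => ?_⟩
  rw [s2, Finset.mem_sdiff, mem_rad hp, mem_T2, not_not, Pool.Agent.Y729.FW.fv_eq_one_iff] at hps
  obtain ⟨hbad, h2⟩ := hps
  by_contra hc
  obtain ⟨v, hv⟩ := exists_over (M := M) p
  have h1 : GoodAt v E := hgood v (by
    rw [hv]
    intro hle
    exact hc (Ideal.dvd_iff_le.2 hle))
  have h3 := good_j v E h1
  rw [hE] at h3
  have hjM : algebraMap K M j * ((algebraMap K M l) ^ 2 * (1 - algebraMap K M l) ^ 2) =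
      256 * ((algebraMap K M l) ^ 2 - algebraMap K M l + 1) ^ 3 := by
    have := congrArg (algebraMap K M) hj
    simpa only [map_mul, map_pow, map_sub, map_add, map_one, map_ofNat] using this
  obtain ⟨h4, h5⟩ := leg_unit (v.valuation M) (val_over_two hv h2)
    (by rw [Ne, map_eq_zero]; exact hl)
    (by
      intro h
      apply hl1
      apply (algebraMap K M).injective
      rw [h, map_one]) hjM h3
  apply hbad
  refine ⟨val_over_one hv h4, val_over_one hv ?_⟩
  rw [map_sub, map_one]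
  exact h5

end ext

end Pool.Agent.K3h24.SB
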