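import Mathlib
import Pool.Agent.K3h24.SB.Ell

/-!
# The primes of the rational numbers
-/

set_option autoImplicit false
set_option linter.unusedSectionVars false

namespace Pool.Agent.K3h24.SB

open NumberField IsDedekindDomain Finset
open Pool.Agent.TH876.Loc

/-- the ideals of the ring of integers of the rational numbers -/
theorem ideal_rat (I : Ideal (𝓞 ℚ)) : ∃ n : ℕ, I = Ideal.span {(n : 𝓞 ℚ)} := by
  set e := Rat.ringOfIntegersEquiv with he
  obtain ⟨n, hn⟩ := (IsPrincipalIdealRing.principal (I.map (e : 𝓞 ℚ →+* ℤ))).principal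
  refine ⟨n.natAbs, ?_⟩
  have h1 : I = (I.map (e : 𝓞 ℚ →+* ℤ)).comap (e : 𝓞 ℚ →+* ℤ) :=
    (Ideal.comap_map_of_bijective (e : 𝓞 ℚ →+* ℤ) e.bijective).symm
  have h2 : I.map (e : 𝓞 ℚ →+* ℤ) = Ideal.span {n} := hn
  rw [h1, h2]
  ext x
  rw [Ideal.mem_comap, Ideal.mem_span_singleton, Ideal.mem_span_singleton]
  have hx : x = ((e x : ℤ) : 𝓞 ℚ) := by
    apply e.injective
    rw [map_intCast, Int.cast_id]
  constructor
  · intro h
    rw [hx]
    have h3 : ((n.natAbs : ℤ)) ∣ e x := Int.natAbs_dvd.2 h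
    obtain ⟨k, hk⟩ := h3
    refine ⟨(k : 𝓞 ℚ), ?_⟩
    rw [hk, Int.cast_mul, Int.cast_natCast]
  · rintro ⟨y, hy⟩
    show n ∣ e x
    rw [hy, map_mul, map_natCast]
    exact (Int.dvd_natAbs.2 dvd_rfl).mul_right _

/-- divisibility of natural numbers in the ring of integers -/
theorem natCast_dvd (n a : ℕ) : (n : 𝓞 ℚ) ∣ (a : 𝓞 ℚ) ↔ n ∣ a := by
  constructor
  · intro h
    have h1 := map_dvd Rat.ringOfIntegersEquiv h
    rw [map_natCast, map_natCast] at h1
    exact_mod_cast h1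
  · rintro ⟨k, rfl⟩
    push_cast
    exact Dvd.intro _ rfl

theorem absNorm_nat (n : ℕ) : Ideal.absNorm (Ideal.span {(n : 𝓞 ℚ)}) = n := by
  rw [Ideal.absNorm_span_natCast, NumberField.RingOfIntegers.rank]
  simp

/-- the prime number of a prime -/
noncomputable def qq (p : Pr ℚ) : ℕ := Ideal.absNorm p.asIdeal

theorem p_eq (p : Pr ℚ) : p.asIdeal = Ideal.span {((qq p : ℕ) : 𝓞 ℚ)} := by
  obtain ⟨n, hn⟩ := ideal_rat p.asIdeal
  have : qq p = n := by
    unfold qq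
    rw [hn, absNorm_nat]
  rw [this]
  exact hn

theorem mem_p (p : Pr ℚ) (a : ℕ) : (a : 𝓞 ℚ) ∈ p.asIdeal ↔ qq p ∣ a := by
  rw [p_eq, Ideal.mem_span_singleton, natCast_dvd]

theorem qq_prime (p : Pr ℚ) : (qq p).Prime := by
  have h1 : 1 < qq p := NumberField.HeightOneSpectrum.one_lt_absNorm p
  have h0 : qq p ≠ 0 := by omega
  rw [Nat.prime_iff]
  refine ⟨h0, fun h => ?_, fun a b hab => ?_⟩
  · rw [Nat.isUnit_iff] at h
    omega
  · rw [← mem_p] at hab ⊢
    rw [← mem_p]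
    push_cast at hab
    exact p.isPrime.mem_or_mem hab

theorem qq_inj {p p' : Pr ℚ} (h : qq p = qq p') : p = p' := by
  apply HeightOneSpectrum.ext
  rw [p_eq p, p_eq p', h]

theorem exists_qq {q : ℕ} (hq : q.Prime) : ∃ p : Pr ℚ, qq p = q := by
  have h1 : Ideal.span {(q : 𝓞 ℚ)} ≠ ⊤ := by
    rw [Ne, Ideal.span_singleton_eq_top]
    intro h
    have h2 := h.map Rat.ringOfIntegersEquiv
    rw [map_natCast, Int.isUnit_iff_natAbs_eq, Int.natAbs_natCast] at h2
    exact hq.one_lt.ne' h2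
  obtain ⟨Q, hQ, hQ2⟩ := Ideal.exists_le_maximal _ h1
  have hq0 : (q : 𝓞 ℚ) ∈ Q := hQ2 (Ideal.mem_span_singleton_self _)
  have hne : Q ≠ ⊥ := by
    rintro rfl
    rw [Ideal.mem_bot] at hq0
    exact hq.ne_zero (by exact_mod_cast hq0)
  refine ⟨⟨Q, hQ.isPrime, hne⟩, ?_⟩
  have h3 : qq ⟨Q, hQ.isPrime, hne⟩ ∣ q := (mem_p _ q).1 hq0
  rcases (Nat.dvd_prime hq).1 h3 with h4 | h4
  · exact absurd h4 (qq_prime _).one_lt.ne'
  · exact h4

theorem val_nat_one (p : Pr ℚ) (a : ℕ) : p.valuation ℚ (a : ℚ) = 1 ↔ ¬ qq p ∣ a := by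
  have e : (a : ℚ) = algebraMap (𝓞 ℚ) ℚ (a : 𝓞 ℚ) := by rw [map_natCast]
  rw [e, HeightOneSpectrum.valuation_eq_one_iff_notMem, mem_p]

theorem val_int_one (p : Pr ℚ) (a : ℤ) : p.valuation ℚ (a : ℚ) = 1 ↔ ¬ qq p ∣ a.natAbs := by
  rcases Int.natAbs_eq a with h | h
  · conv_lhs => rw [h]
    rw [Int.cast_natCast, val_nat_one]
  · conv_lhs => rw [h]
    rw [Int.cast_neg, Int.cast_natCast, Valuation.map_neg, val_nat_one]

theorem val_int_le (p : Pr ℚ) (a : ℤ) : p.valuation ℚ (a : ℚ) ≤ 1 := by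
  have e : (a : ℚ) = algebraMap (𝓞 ℚ) ℚ (a : 𝓞 ℚ) := by rw [map_intCast]
  rw [e]
  exact p.valuation_le_one _

/-- integrality of a rational number at a prime -/
theorem val_le_iff (p : Pr ℚ) (j : ℚ) : p.valuation ℚ j ≤ 1 ↔ ¬ qq p ∣ j.den := by
  have hj : j = (j.num : ℚ) / (j.den : ℚ) := (Rat.num_div_den j).symm
  constructor
  · intro h hd
    have h1 : p.valuation ℚ (j.den : ℚ) < 1 := by
      refine lt_of_le_of_ne ?_ fun h => ((val_nat_one p _).1 h) hd
      exact_mod_cast val_int_le p (j.den : ℤ)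
    have h2 : p.valuation ℚ (j.num : ℚ) = 1 := by
      rw [val_int_one]
      intro h3
      have h4 := Nat.dvd_gcd h3 hd
      rw [j.reduced] at h4
      exact (qq_prime p).one_lt.ne' (Nat.dvd_one.1 h4)
    have h3 : p.valuation ℚ j * p.valuation ℚ (j.den : ℚ) = 1 := by
      rw [← map_mul, Rat.mul_den_eq_num, h2]
    have h4 : p.valuation ℚ j * p.valuation ℚ (j.den : ℚ) ≤ p.valuation ℚ (j.den : ℚ) :=
      mul_le_of_le_one_left' h
    rw [h3] at h4
    exact absurd (lt_of_le_of_lt h4 h1) (lt_irrefl _)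
  · intro h
    have h1 := (val_nat_one p j.den).2 h
    have h3 : p.valuation ℚ j * p.valuation ℚ (j.den : ℚ) = p.valuation ℚ (j.num : ℚ) := by
      rw [← map_mul, Rat.mul_den_eq_num]
    rw [h1, mul_one] at h3
    rw [h3]
    exact val_int_le p _

/-- the product of the odd primes in the denominator of `j` -/
noncomputable def oddRad (j : ℚ) : ℝ := ∏ q ∈ j.den.primeFactors.erase 2, (q : ℝ)

/-- it is the norm of the set of primes of the Legendre parameter -/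
theorem nn_s2 {l j : ℚ} (hl : l ≠ 0) (hl1 : l ≠ 1)
    (hj : j * (l ^ 2 * (1 - l) ^ 2) = 256 * (l ^ 2 - l + 1) ^ 3) : nn (s2 l) = oddRad j := by
  classical
  have hp := pt_neg hl hl1
  have h1 : (s2 l).image qq = j.den.primeFactors.erase 2 := by
    ext q
    rw [Finset.mem_image, Finset.mem_erase, Nat.mem_primeFactors]
    constructor
    · rintro ⟨p, hps, rfl⟩
      rw [s2, Finset.mem_sdiff, mem_rad hp, mem_T2, not_not,
        Pool.Agent.Y729.FW.fv_eq_one_iff] at hps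
      obtain ⟨hbad, h2⟩ := hps
      refine ⟨fun h => ?_, qq_prime p, ?_, j.den_ne_zero⟩
      · have h3 := (val_nat_one p 2).1 (by exact_mod_cast h2)
        exact h3 (by rw [h])
      · by_contra hc
        exact hbad (leg_unit _ h2 hl hl1 hj ((val_le_iff p j).2 hc))
    · rintro ⟨h2, hq, hd, -⟩
      obtain ⟨p, rfl⟩ := exists_qq hq
      refine ⟨p, ?_, rfl⟩
      have hv2 : p.valuation ℚ 2 = 1 := by
        have : ¬ qq p ∣ 2 := fun h => h2 ((Nat.prime_dvd_prime_iff_eq hq Nat.prime_two).1 h)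
        exact_mod_cast (val_nat_one p 2).2 this
      rw [s2, Finset.mem_sdiff, mem_rad hp, mem_T2, not_not, Pool.Agent.Y729.FW.fv_eq_one_iff]
      refine ⟨?_, hv2⟩
      rintro ⟨h4, h5⟩
      apply (not_iff_not.2 (val_le_iff p j)).2 (not_not.2 hd)
      have hv := congrArg (p.valuation ℚ) hj
      have h256 : p.valuation ℚ (256 : ℚ) = 1 := by
        have : (256 : ℚ) = 2 ^ 8 := by norm_num
        rw [this, map_pow, hv2, one_pow]
      rw [map_mul, map_mul, map_mul, map_pow, map_pow, map_pow, h256, one_mul, h4, h5, one_pow,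
        mul_one, mul_one] at hv
      rw [hv]
      refine pow_le_one' ?_ 3
      refine (Valuation.map_add _ _ _).trans (max_le ((Valuation.map_sub _ _ _).trans
        (max_le ?_ h4.le)) (map_one _).le)
      rw [map_pow]
      exact pow_le_one' h4.le 2
  unfold oddRad
  rw [← h1, Finset.prod_image fun p _ p' _ h => qq_inj h]
  rfl

/-- the modular invariants of the elliptic curves over the rational numbers with full rational
two-torsion -/
def LevelTwo (j : ℚ) : Prop :=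
  ∃ l : ℚ, l ≠ 0 ∧ l ≠ 1 ∧ j * (l ^ 2 * (1 - l) ^ 2) = 256 * (l ^ 2 - l + 1) ^ 3

open Classical in
/-- the number of the invariants with odd radical of the denominator at most `T` is finite, and
the reciprocals of the radicals are summable -/
theorem odd_fin (T : ℝ) (hT : 1 ≤ T) : {j : ℚ | LevelTwo j ∧ oddRad j ≤ T}.Finite := by
  obtain ⟨D, hD, hcnt⟩ := count (adm_s2 (K := ℚ)) (1 / 6) (by norm_num)
  refine ((hcnt T hT).1.image fun l => 256 * (l ^ 2 - l + 1) ^ 3 / (l ^ 2 * (1 - l) ^ 2)).subset ?_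
  rintro j ⟨⟨l, hl, hl1, hj⟩, hjT⟩
  have hne : l ^ 2 * (1 - l) ^ 2 ≠ 0 :=
    mul_ne_zero (pow_ne_zero _ hl) (pow_ne_zero _ (sub_ne_zero.2 hl1.symm))
  refine ⟨l, ⟨pt_neg hl hl1, ?_⟩, ?_⟩
  · rw [nn_s2 hl hl1 hj]
    exact hjT
  · show 256 * (l ^ 2 - l + 1) ^ 3 / (l ^ 2 * (1 - l) ^ 2) = j
    rw [div_eq_iff hne]
    exact hj.symm

open Classical in
theorem odd_tail (δ : ℝ) (hδ : 0 < δ) : ∃ C : ℝ, 0 < C ∧ ∀ T : ℝ, 1 ≤ T →
    ∀ A : Finset ℚ, (∀ j ∈ A, LevelTwo j ∧ T < oddRad j) →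
      ∑ j ∈ A, (oddRad j)⁻¹ ≤ C * T ^ (-(1 / 3) + δ) := by
  obtain ⟨C, hC, h⟩ := recip_sum (adm_s2 (K := ℚ)) δ hδ
  refine ⟨C, hC, fun T hT A hA => ?_⟩
  choose! l hl using fun j => fun (hj : LevelTwo j) => hj
  have hinj : Set.InjOn l (A : Set ℚ) := by
    intro j hj j' hj' hll
    have h1 := hl j (hA j hj).1
    have h2 := hl j' (hA j' hj').1
    rw [← hll] at h2
    have hne : l j ^ 2 * (1 - l j) ^ 2 ≠ 0 :=
      mul_ne_zero (pow_ne_zero _ h1.1) (pow_ne_zero _ (sub_ne_zero.2 h1.2.1.symm))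
    exact mul_right_cancel₀ hne (h1.2.2.trans h2.2.2.symm)
  have h1 := h T hT (A.image l) (by
    intro x hx
    obtain ⟨j, hj, rfl⟩ := Finset.mem_image.1 hx
    have h2 := hl j (hA j hj).1
    refine ⟨pt_neg h2.1 h2.2.1, ?_⟩
    rw [nn_s2 h2.1 h2.2.1 h2.2.2]
    exact (hA j hj).2)
  rw [Finset.sum_image hinj] at h1
  refine le_trans (le_of_eq (Finset.sum_congr rfl fun j hj => ?_)) h1
  have h2 := hl j (hA j hj).1
  rw [nn_s2 h2.1 h2.2.1 h2.2.2]

end Pool.Agent.K3h24.SB
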